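import Pool.Agent.D0H24.NC2.Rate

/-!
The two-point function at and above the critical point.
-/

set_option autoImplicit false
set_option maxHeartbeats 1000000

namespace Pool.Agent.D0H24.NC2

open H974 Finset MeasureTheory Filter Topology

def InTh : Prop := ∃ c : ℝ, 0 < c ∧ ∀ p : unitInterval, (1/2 : ℝ) < p →
  c * ((p:ℝ) - 1/2)^(5/36 : ℝ) ≤ theta p

theorem above_low (h1 : InL1) (h2 : InL2) (h3 : InTh) : ∃ c : ℝ, 0 < c ∧
    ∀ p : unitInterval, 1/2 ≤ (p:ℝ) → ∀ v : Vtx, 1 ≤ nv v →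
      c * ((nv v:ℝ)^(-(5/24) : ℝ) + ((p:ℝ) - 1/2)^(5/18 : ℝ)) ≤ tau p (0, 0) v := by
  obtain ⟨c1, C1, hc1, hC1, a1⟩ := h1
  obtain ⟨c2, C2, hc2, hC2, a2⟩ := h2
  obtain ⟨c3, hc3, a3⟩ := h3
  refine ⟨1/2 * (min (c1 * (5:ℝ)^(-(5/48) : ℝ)) c3)^2 * c2^4, by
    have := lt_min (mul_pos hc1 (Real.rpow_pos_of_pos (by norm_num : (0:ℝ) < 5) (-(5/48)))) hc3
    positivity, ?_⟩
  intro p hp v hv
  obtain ⟨n, hn⟩ : ∃ n : ℕ, n = nv v := ⟨_, rfl⟩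
  rw [← hn] at hv ⊢
  have hn0 : (0:ℝ) < n := by exact_mod_cast hv
  have hin : inR (-(n : ℤ)) n (-(n : ℤ)) n v := by
    unfold nv at hn
    unfold inR; omega
  have k := (two_low p.2.1 p.2.2 hv hin).trans (tau_ge p _ _ _)
  have hzero : tt (1/2) = 0 := by
    unfold tt
    rw [sub_self, abs_zero]
    exact Real.zero_rpow (by norm_num)
  have b1 := a1 (1/2) (by norm_num) (by norm_num) (5 * n) (by omega)
  have b2 := a2 (1/2) (by norm_num) (by norm_num) (8 * n) (2 * n) (by omega) (by omega)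
    (by omega) (by omega)
  rw [hzero, mul_zero, mul_zero, neg_zero, Real.exp_zero, mul_one] at b1 b2
  have e4 : (((5 * n : ℕ) : ℝ))^(-(5/48) : ℝ) = (5:ℝ)^(-(5/48) : ℝ) * (n:ℝ)^(-(5/48) : ℝ) := by
    push_cast
    rw [Real.mul_rpow (by norm_num) hn0.le]
  rw [e4] at b1
  have e5 : (((8 * n : ℕ) : ℤ)) = 8 * (n:ℤ) := by push_cast; ring
  have e6 : (((2 * n : ℕ) : ℤ)) = 2 * (n:ℤ) := by push_cast; ring
  rw [e5, e6] at b2
  have m1 := b1.trans (arm_mono_param (by norm_num) hp p.2.2 (5 * n))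
  have m2 := b2.trans (hh_mono_param (by norm_num) hp p.2.2 (8 * (n:ℤ)) (2 * n))
  have m3 : c3 * ((p:ℝ) - 1/2)^(5/36 : ℝ) ≤ arm p (5 * n) := by
    rcases hp.eq_or_lt with heq | hlt
    · rw [← heq, sub_self, Real.zero_rpow (by norm_num), mul_zero]
      exact arm_nonneg (by norm_num) (by norm_num) _
    · exact (a3 p hlt).trans (theta_le_arm p _)
  obtain ⟨d, hd⟩ : ∃ d : ℝ, d = min (c1 * (5:ℝ)^(-(5/48) : ℝ)) c3 := ⟨_, rfl⟩
  rw [← hd]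
  have hd0 : 0 < d := by
    rw [hd]
    exact lt_min (mul_pos hc1 (Real.rpow_pos_of_pos (by norm_num : (0:ℝ) < 5) (-(5/48)))) hc3
  have hs0 : 0 ≤ (p:ℝ) - 1/2 := by linarith
  have hA : 0 ≤ (n:ℝ)^(-(5/48) : ℝ) := Real.rpow_nonneg hn0.le _
  have hB : 0 ≤ ((p:ℝ) - 1/2)^(5/36 : ℝ) := Real.rpow_nonneg hs0 _
  have f1 : (n:ℝ)^(-(5/24) : ℝ) = ((n:ℝ)^(-(5/48) : ℝ))^2 := by
    rw [← Real.rpow_natCast, ← Real.rpow_mul hn0.le]
    norm_num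
  have f2 : ((p:ℝ) - 1/2)^(5/18 : ℝ) = (((p:ℝ) - 1/2)^(5/36 : ℝ))^2 := by
    rw [← Real.rpow_natCast, ← Real.rpow_mul hs0]
    norm_num
  have g1 : d * (n:ℝ)^(-(5/48) : ℝ) ≤ arm p (5 * n) := by
    refine le_trans ?_ m1
    rw [← mul_assoc]
    exact mul_le_mul_of_nonneg_right (by rw [hd]; exact min_le_left _ _) hA
  have g2 : d * ((p:ℝ) - 1/2)^(5/36 : ℝ) ≤ arm p (5 * n) := by
    refine le_trans ?_ m3
    exact mul_le_mul_of_nonneg_right (by rw [hd]; exact min_le_right _ _) hB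
  have g3 := pow_le_pow_left₀ (by positivity) g1 2
  have g4 := pow_le_pow_left₀ (by positivity) g2 2
  have g5 := pow_le_pow_left₀ hc2.le m2 4
  have g6 : 1/2 * (d^2 * ((n:ℝ)^(-(5/24) : ℝ) + ((p:ℝ) - 1/2)^(5/18 : ℝ))) ≤
      (arm p (5 * n))^2 := by
    rw [f1, f2]
    nlinarith
  have g7 : 0 ≤ 1/2 * (d^2 * ((n:ℝ)^(-(5/24) : ℝ) + ((p:ℝ) - 1/2)^(5/18 : ℝ))) := by
    have : 0 ≤ (n:ℝ)^(-(5/24) : ℝ) := Real.rpow_nonneg hn0.le _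
    have : 0 ≤ ((p:ℝ) - 1/2)^(5/18 : ℝ) := Real.rpow_nonneg hs0 _
    positivity
  have g8 := mul_le_mul g6 g5 (by positivity) (sq_nonneg _)
  refine le_trans (le_of_eq ?_) (g8.trans k)
  ring

theorem above_up (h1 : InU1) : ∃ C : ℝ, 0 < C ∧
    ∀ p : unitInterval, 1/2 ≤ (p:ℝ) → ∀ v : Vtx, 1 ≤ nv v →
      tau p (0, 0) v ≤ C * ((nv v:ℝ)^(-(5/24) : ℝ) + ((p:ℝ) - 1/2)^(5/18 : ℝ)) := by
  obtain ⟨C1, hC1, a1⟩ := h1
  refine ⟨48 * C1^2 + 32, by positivity, ?_⟩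
  intro p hp v hv
  obtain ⟨n, hn⟩ : ∃ n : ℕ, n = nv v := ⟨_, rfl⟩
  rw [← hn] at hv ⊢
  have hn0 : (0:ℝ) < n := by exact_mod_cast hv
  have hn1 : (1:ℝ) ≤ n := by exact_mod_cast hv
  have hs0 : 0 ≤ (p:ℝ) - 1/2 := by linarith
  have hA : 0 < (n:ℝ)^(-(5/24) : ℝ) := Real.rpow_pos_of_pos hn0 _
  have hB : 0 ≤ ((p:ℝ) - 1/2)^(5/18 : ℝ) := Real.rpow_nonneg hs0 _
  have hC2 : 0 ≤ 48 * C1^2 := by positivity
  have htriv : tau p (0, 0) v ≤ 1 := tau_le_one _ _ _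
  rcases lt_or_ge n 32 with hlt | hge
  · have hn32 : (n:ℝ) ≤ 32 := by exact_mod_cast hlt.le
    have k2 : (1/32 : ℝ) ≤ (n:ℝ)^(-(5/24) : ℝ) := by
      calc (1/32 : ℝ) ≤ 1 / n := one_div_le_one_div_of_le hn0 hn32
        _ = (n:ℝ)^(-1 : ℝ) := by rw [Real.rpow_neg_one, one_div]
        _ ≤ _ := Real.rpow_le_rpow_of_exponent_le hn1 (by norm_num)
    nlinarith
  · rcases le_or_gt (p:ℝ) (3/4) with hp2 | hp2
    · obtain ⟨m, hm⟩ : ∃ m : ℕ, m = n / 16 := ⟨_, rfl⟩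
      have hm2 : 2 ≤ m := by rw [hm]; omega
      have hmn : 16 * m ≤ n := by rw [hm]; omega
      have hnm : n ≤ 24 * m := by rw [hm]; omega
      have hm0 : (0:ℝ) < m := by
        have : 0 < m := by omega
        exact_mod_cast this
      have hnmr : (n:ℝ) ≤ 24 * m := by exact_mod_cast hnm
      have hmp : (m:ℝ)^(-(5/24) : ℝ) ≤ 24 * (n:ℝ)^(-(5/24) : ℝ) := by
        have k1 : (m:ℝ)^(-(5/24) : ℝ) ≤ ((n:ℝ)/24)^(-(5/24) : ℝ) := by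
          apply Real.rpow_le_rpow_of_nonpos (by positivity) _ (by norm_num)
          rw [div_le_iff₀ (by norm_num)]
          linarith
        have k2 : ((n:ℝ)/24)^(-(5/24) : ℝ) = (24:ℝ)^(5/24 : ℝ) * (n:ℝ)^(-(5/24) : ℝ) := by
          rw [Real.div_rpow hn0.le (by norm_num), Real.rpow_neg (by norm_num : (0:ℝ) ≤ 24)]
          field_simp
        have k3 : (24:ℝ)^(5/24 : ℝ) ≤ 24 := by
          calc (24:ℝ)^(5/24 : ℝ) ≤ (24:ℝ)^(1:ℝ) :=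
                Real.rpow_le_rpow_of_exponent_le (by norm_num) (by norm_num)
            _ = 24 := Real.rpow_one _
        rw [k2] at k1
        exact k1.trans (mul_le_mul_of_nonneg_right k3 hA.le)
      have hout : Out (2 * m + 1) v := by
        unfold nv at hn
        unfold Out
        omega
      have k1 := tau_up p hout
      have k2 := a1 p (by linarith) hp2 m (by omega)
      have k3 := pow_le_pow_left₀ (arm_nonneg p.2.1 p.2.2 m) k2 2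
      have htt : tt (p:ℝ) = ((p:ℝ) - 1/2)^(4/3 : ℝ) := by
        unfold tt; rw [abs_of_nonneg hs0]
      have hprod : (m:ℝ)^(-(5/48) : ℝ) * ((m:ℝ) * tt p)^(5/48 : ℝ) =
          ((p:ℝ) - 1/2)^(5/36 : ℝ) := by
        rw [Real.mul_rpow hm0.le (tt_nonneg p), htt, ← Real.rpow_mul hs0, ← mul_assoc,
          ← Real.rpow_add hm0]
        norm_num
      have f1 : (m:ℝ)^(-(5/24) : ℝ) = ((m:ℝ)^(-(5/48) : ℝ))^2 := by
        rw [← Real.rpow_natCast, ← Real.rpow_mul hm0.le]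
        norm_num
      have f2 : ((p:ℝ) - 1/2)^(5/18 : ℝ) = (((p:ℝ) - 1/2)^(5/36 : ℝ))^2 := by
        rw [← Real.rpow_natCast, ← Real.rpow_mul hs0]
        norm_num
      have k4 : C1 * (m:ℝ)^(-(5/48) : ℝ) * (1 + ((m:ℝ) * tt p)^(5/48 : ℝ)) =
          C1 * ((m:ℝ)^(-(5/48) : ℝ) + ((p:ℝ) - 1/2)^(5/36 : ℝ)) := by
        rw [← hprod]; ring
      rw [k4] at k3
      have k5 : (C1 * ((m:ℝ)^(-(5/48) : ℝ) + ((p:ℝ) - 1/2)^(5/36 : ℝ)))^2 ≤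
          2 * C1^2 * ((m:ℝ)^(-(5/24) : ℝ) + ((p:ℝ) - 1/2)^(5/18 : ℝ)) := by
        rw [f1, f2]
        have h : ((m:ℝ)^(-(5/48) : ℝ) + ((p:ℝ) - 1/2)^(5/36 : ℝ))^2 ≤
            2 * (((m:ℝ)^(-(5/48) : ℝ))^2 + (((p:ℝ) - 1/2)^(5/36 : ℝ))^2) := by
          nlinarith [sq_nonneg ((m:ℝ)^(-(5/48) : ℝ) - ((p:ℝ) - 1/2)^(5/36 : ℝ))]
        calc (C1 * ((m:ℝ)^(-(5/48) : ℝ) + ((p:ℝ) - 1/2)^(5/36 : ℝ)))^2
            = C1^2 * ((m:ℝ)^(-(5/48) : ℝ) + ((p:ℝ) - 1/2)^(5/36 : ℝ))^2 := by ring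
          _ ≤ C1^2 * (2 * (((m:ℝ)^(-(5/48) : ℝ))^2 + (((p:ℝ) - 1/2)^(5/36 : ℝ))^2)) :=
              mul_le_mul_of_nonneg_left h (sq_nonneg _)
          _ = _ := by ring
      have hC12 : 0 ≤ C1^2 := sq_nonneg _
      calc tau p (0, 0) v ≤ (arm p m)^2 := k1
        _ ≤ _ := k3
        _ ≤ _ := k5
        _ ≤ 2 * C1^2 * (24 * (n:ℝ)^(-(5/24) : ℝ) + 24 * ((p:ℝ) - 1/2)^(5/18 : ℝ)) := by
            apply mul_le_mul_of_nonneg_left _ (by positivity)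
            linarith
        _ ≤ _ := by nlinarith
    · have k1 : (1/32 : ℝ) ≤ ((p:ℝ) - 1/2)^(5/18 : ℝ) := by
        have hs4 : (1/4 : ℝ) ≤ (p:ℝ) - 1/2 := by linarith
        calc (1/32 : ℝ) ≤ (1/4 : ℝ) := by norm_num
          _ = (1/4 : ℝ)^(1:ℝ) := (Real.rpow_one _).symm
          _ ≤ (1/4 : ℝ)^(5/18 : ℝ) :=
              Real.rpow_le_rpow_of_exponent_ge (by norm_num) (by norm_num) (by norm_num)
          _ ≤ _ := Real.rpow_le_rpow (by norm_num) hs4 (by norm_num)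
      nlinarith

end Pool.Agent.D0H24.NC2
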