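import Pool.Agent.H974R2.Infinite

/-!
Two-point functions of bond percolation on the square lattice: translation invariance, passage
between the infinite lattice and finite boxes.
-/

set_option autoImplicit false
set_option maxHeartbeats 1000000

namespace Pool.Agent.D0H24.NC2

open H974 Finset MeasureTheory

/-- The probability that `x` and `y` are in the same open cluster. -/
noncomputable def tau (p : unitInterval) (x y : ℤ × ℤ) : ℝ :=
  (bondLaw p).real {ω | (openGraph ω).Reachable x y}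

/-- The probability that `x` and `y` are in the same open cluster and that this cluster is
finite. -/
noncomputable def tauf (p : unitInterval) (x y : ℤ × ℤ) : ℝ :=
  (bondLaw p).real {ω | (openGraph ω).Reachable x y ∧ {v | (openGraph ω).Reachable x v}.Finite}

/-! ### Translations -/

/-- the shift of the lattice -/
def sh (a : ℤ × ℤ) : sqLattice ≃g sqLattice where
  toFun v := v + a
  invFun v := v - a
  left_inv v := by simp
  right_inv v := by simp
  map_rel_iff' := by
    intro u v
    show |(u + a).1 - (v + a).1| + |(u + a).2 - (v + a).2| = 1 ↔ |u.1 - v.1| + |u.2 - v.2| = 1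
    simp

/-- the shift of the edges -/
def she (a : ℤ × ℤ) : sqLattice.edgeSet ≃ sqLattice.edgeSet := (sh a).mapEdgeSet

/-- the shift of configurations: `(tr s ω) (shifted e) = ω e` -/
noncomputable def tr (a : ℤ × ℤ) : (sqLattice.edgeSet → Bool) ≃ᵐ (sqLattice.edgeSet → Bool) :=
  MeasurableEquiv.piCongrLeft (fun _ => Bool) (she a)

theorem tr_apply (a : ℤ × ℤ) (ω : sqLattice.edgeSet → Bool) (e : sqLattice.edgeSet) :
    tr a ω (she a e) = ω e := by
  unfold tr
  exact Equiv.piCongrLeft_apply_apply (fun _ => Bool) (she a) ω e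

theorem map_tr (a : ℤ × ℤ) (p : unitInterval) : (bondLaw p).map (tr a) = bondLaw p := by
  unfold bondLaw tr
  exact Measure.infinitePi_map_piCongrLeft
    (fun _ => ProbabilityTheory.bernoulliMeasure true false p) (she a)

theorem adj_tr (a : ℤ × ℤ) (ω : sqLattice.edgeSet → Bool) (u v : ℤ × ℤ) :
    (openGraph (tr a ω)).Adj (sh a u) (sh a v) ↔ (openGraph ω).Adj u v := by
  unfold openGraph
  rw [SimpleGraph.fromEdgeSet_adj, SimpleGraph.fromEdgeSet_adj]
  refine and_congr ?_ (not_congr (sh a).injective.eq_iff)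
  constructor
  · rintro ⟨h, hω⟩
    have h' : s(u, v) ∈ sqLattice.edgeSet := by
      rw [SimpleGraph.mem_edgeSet] at h ⊢
      exact (sh a).map_adj_iff.mp h
    refine ⟨h', ?_⟩
    have := tr_apply a ω ⟨s(u, v), h'⟩
    rw [← this]
    exact hω
  · rintro ⟨h, hω⟩
    have h' : s(sh a u, sh a v) ∈ sqLattice.edgeSet := by
      rw [SimpleGraph.mem_edgeSet] at h ⊢
      exact (sh a).map_adj_iff.mpr h
    refine ⟨h', ?_⟩
    have := tr_apply a ω ⟨s(u, v), h⟩
    rw [← hω, ← this]
    rfl

/-- isomorphism of the open graphs -/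
def iso (a : ℤ × ℤ) (ω : sqLattice.edgeSet → Bool) : openGraph ω ≃g openGraph (tr a ω) where
  toEquiv := (sh a).toEquiv
  map_rel_iff' := by
    intro u v
    exact adj_tr a ω u v

theorem reach_tr (a : ℤ × ℤ) (ω : sqLattice.edgeSet → Bool) (u v : ℤ × ℤ) :
    (openGraph (tr a ω)).Reachable (u + a) (v + a) ↔ (openGraph ω).Reachable u v :=
  (iso a ω).reachable_iff (u := u) (v := v)

theorem fin_tr (a : ℤ × ℤ) (ω : sqLattice.edgeSet → Bool) (u : ℤ × ℤ) :
    {v | (openGraph (tr a ω)).Reachable (u + a) v}.Finite ↔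
      {v | (openGraph ω).Reachable u v}.Finite := by
  have h : {v | (openGraph (tr a ω)).Reachable (u + a) v} =
      (fun v => v + a) '' {v | (openGraph ω).Reachable u v} := by
    ext v
    constructor
    · intro hv
      refine ⟨v - a, ?_, by simp⟩
      have h1 : (openGraph (tr a ω)).Reachable (u + a) ((v - a) + a) := by
        rw [sub_add_cancel]; exact hv
      exact (reach_tr a ω u (v - a)).mp h1
    · rintro ⟨w, hw, rfl⟩
      exact (reach_tr a ω u w).mpr hw
  rw [h]
  exact Set.finite_image_iff (fun x _ y _ hxy => add_right_cancel hxy)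

theorem real_tr (a : ℤ × ℤ) (p : unitInterval) (A : Set (sqLattice.edgeSet → Bool)) :
    (bondLaw p).real A = (bondLaw p).real ((tr a) ⁻¹' A) := by
  conv_lhs => rw [← map_tr a p]
  rw [measureReal_def, measureReal_def, MeasurableEquiv.map_apply]

theorem tau_shift (p : unitInterval) (x y a : ℤ × ℤ) : tau p (x + a) (y + a) = tau p x y := by
  unfold tau
  rw [real_tr a]
  congr 1
  ext ω
  exact reach_tr a ω x y

theorem tauf_shift (p : unitInterval) (x y a : ℤ × ℤ) : tauf p (x + a) (y + a) = tauf p x y := by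
  unfold tauf
  rw [real_tr a]
  congr 1
  ext ω
  exact and_congr (reach_tr a ω x y) (fin_tr a ω x)

theorem tau_zero (p : unitInterval) (x y : ℤ × ℤ) : tau p x y = tau p 0 (y - x) := by
  have := tau_shift p 0 (y - x) x
  rw [zero_add, sub_add_cancel] at this
  exact this

theorem tauf_zero (p : unitInterval) (x y : ℤ × ℤ) : tauf p x y = tauf p 0 (y - x) := by
  have := tauf_shift p 0 (y - x) x
  rw [zero_add, sub_add_cancel] at this
  exact this

theorem tau_comm (p : unitInterval) (x y : ℤ × ℤ) : tau p x y = tau p y x := by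
  unfold tau
  congr 1
  ext ω
  exact ⟨fun h => h.symm, fun h => h.symm⟩

theorem tauf_comm (p : unitInterval) (x y : ℤ × ℤ) : tauf p x y = tauf p y x := by
  unfold tauf
  congr 1
  ext ω
  constructor
  · rintro ⟨h1, h2⟩
    refine ⟨h1.symm, h2.subset ?_⟩
    intro v hv
    exact h1.trans hv
  · rintro ⟨h1, h2⟩
    refine ⟨h1.symm, h2.subset ?_⟩
    intro v hv
    exact h1.trans hv

theorem tau_nonneg (p : unitInterval) (x y : ℤ × ℤ) : 0 ≤ tau p x y := measureReal_nonneg
theorem tauf_nonneg (p : unitInterval) (x y : ℤ × ℤ) : 0 ≤ tauf p x y := measureReal_nonneg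
theorem tau_le_one (p : unitInterval) (x y : ℤ × ℤ) : tau p x y ≤ 1 := measureReal_le_one

theorem tauf_le_tau (p : unitInterval) (x y : ℤ × ℤ) : tauf p x y ≤ tau p x y :=
  measureReal_mono (fun _ h => h.1) (measure_ne_top _ _)

/-- Below the critical point all clusters are finite. -/
theorem tau_eq_tauf {p : unitInterval} (hp : (p:ℝ) ≤ 1/2) (x y : ℤ × ℤ) :
    tau p x y = tauf p x y := by
  rw [tau_zero, tauf_zero]
  apply le_antisymm _ (tauf_le_tau _ _ _)
  have h0 : (bondLaw p).real {ω | (cluster0 ω).Infinite} = 0 := theta_half_le hp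
  have h1 : tau p 0 (y - x) ≤ (bondLaw p).real
      ({ω | (openGraph ω).Reachable 0 (y - x) ∧ {v | (openGraph ω).Reachable 0 v}.Finite} ∪
        {ω | (cluster0 ω).Infinite}) := by
    apply measureReal_mono _ (measure_ne_top _ _)
    intro ω hω
    by_cases hf : {v | (openGraph ω).Reachable 0 v}.Finite
    · exact Or.inl ⟨hω, hf⟩
    · exact Or.inr hf
  have h2 := measureReal_union_le (μ := bondLaw p)
    {ω | (openGraph ω).Reachable 0 (y - x) ∧ {v | (openGraph ω).Reachable 0 v}.Finite}
    {ω | (cluster0 ω).Infinite}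
  rw [h0, add_zero] at h2
  exact h1.trans h2

/-! ### Boxes -/

theorem edge_box (e : Edg) : ∃ m : ℕ, e ∈ boxE m := by
  obtain ⟨x, y, _ | _⟩ := e
  · refine ⟨x.natAbs + y.natAbs + 1, ?_⟩
    unfold boxE
    simp only [mem_RE_false]
    omega
  · refine ⟨x.natAbs + y.natAbs + 1, ?_⟩
    unfold boxE
    simp only [mem_RE_true]
    omega

theorem box_coe {m m' : ℕ} (h : m ≤ m') : (↑(boxE m) : Set Edg) ⊆ ↑(boxE m') := by
  exact_mod_cast boxE_mono h

theorem reach_bx {F : Set Edg} {u v : Vtx} (h : Reach F u v) :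
    ∃ m : ℕ, ∀ m' : ℕ, m ≤ m' → Reach (F ∩ ↑(boxE m')) u v := by
  induction h with
  | refl => exact ⟨0, fun _ _ => Reach.refl _ _⟩
  | tail _ hs ih =>
    obtain ⟨m, hm⟩ := ih
    obtain ⟨e, he, hcase⟩ := hs
    obtain ⟨m', hm'⟩ := edge_box e
    refine ⟨max m m', fun M hM => ?_⟩
    refine (hm M (by omega)).trans ?_
    exact Adj.reach ⟨e, ⟨he, box_coe (show m' ≤ M by omega) (Finset.mem_coe.2 hm')⟩, hcase⟩

/-- the finite-volume event -/
def Cx (x y : Vtx) (F : Finset Edg) : Prop := Reach (↑F : Set Edg) x y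

theorem Cx.mono {x y : Vtx} {F G : Finset Edg} (h : F ⊆ G) (hF : Cx x y F) : Cx x y G :=
  Reach.mono (by exact_mod_cast h) hF

theorem Cx_incr (S : Finset Edg) (x y : Vtx) : IncrE S (Cx x y) := fun _ _ h _ hF => hF.mono h

theorem law_Cx (p : unitInterval) (S : Finset Edg) (x y : Vtx) :
    (bondLaw p).real {ω | Cx x y (FF S ω)} = Pr (fun _ => (p:ℝ)) S (Cx x y) := law_event p S _

theorem tau_ge (p : unitInterval) (S : Finset Edg) (x y : Vtx) :
    Pr (fun _ => (p:ℝ)) S (Cx x y) ≤ tau p x y := by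
  rw [← law_Cx]
  unfold tau
  apply measureReal_mono _ (measure_ne_top _ _)
  intro ω hω
  have h : Reach (↑(FF S ω) : Set Edg) x y := hω
  rw [FF_coe] at h
  exact (open_reach ω _ _).mpr (h.mono Set.inter_subset_left)

theorem tau_iUnion (x y : Vtx) : {ω : sqLattice.edgeSet → Bool | (openGraph ω).Reachable x y} =
    ⋃ m : ℕ, {ω | Cx x y (FF (boxE m) ω)} := by
  ext ω
  rw [Set.mem_iUnion]
  constructor
  · intro h
    obtain ⟨m, hm⟩ := reach_bx ((open_reach ω x y).mp h)
    refine ⟨m, ?_⟩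
    show Reach (↑(FF (boxE m) ω) : Set Edg) x y
    rw [FF_coe]
    exact hm m le_rfl
  · rintro ⟨m, hm⟩
    have h : Reach (↑(FF (boxE m) ω) : Set Edg) x y := hm
    rw [FF_coe] at h
    exact (open_reach ω _ _).mpr (h.mono Set.inter_subset_left)

theorem FF_mono {S T : Finset Edg} (h : S ⊆ T) (ω : sqLattice.edgeSet → Bool) : FF S ω ⊆ FF T ω := by
  intro e he
  rw [mem_FF] at he ⊢
  exact ⟨h he.1, he.2⟩

theorem tau_lim (p : unitInterval) (x y : Vtx) :
    Filter.Tendsto (fun m : ℕ => Pr (fun _ => (p:ℝ)) (boxE m) (Cx x y)) Filter.atTop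
      (nhds (tau p x y)) := by
  have h1 : Filter.Tendsto (fun m : ℕ => (bondLaw p) {ω | Cx x y (FF (boxE m) ω)}) Filter.atTop
      (nhds ((bondLaw p) (⋃ m : ℕ, {ω | Cx x y (FF (boxE m) ω)}))) := by
    apply tendsto_measure_iUnion_atTop
    intro m m' h ω hω
    exact Cx.mono (FF_mono (boxE_mono h) ω) hω
  have h2 := (ENNReal.tendsto_toReal (measure_ne_top (bondLaw p)
    (⋃ m : ℕ, {ω | Cx x y (FF (boxE m) ω)}))).comp h1
  rw [← tau_iUnion] at h2
  refine h2.congr (fun m => ?_)
  rw [← law_Cx]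
  rfl

theorem tau_le (p : unitInterval) (x y : Vtx) {c : ℝ}
    (h : ∀ m : ℕ, Pr (fun _ => (p:ℝ)) (boxE m) (Cx x y) ≤ c) : tau p x y ≤ c :=
  le_of_tendsto' (tau_lim p x y) h

theorem meas_tau (x y : Vtx) :
    MeasurableSet {ω : sqLattice.edgeSet → Bool | (openGraph ω).Reachable x y} := by
  rw [tau_iUnion]
  exact MeasurableSet.iUnion (fun m => meas_event _ _)

/-- Connections are positively correlated. -/
theorem tau_mul (p : unitInterval) (x y z : Vtx) : tau p x y * tau p y z ≤ tau p x z := by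
  have h := (tau_lim p x y).mul (tau_lim p y z)
  apply le_of_tendsto' h
  intro m
  refine le_trans ?_ (tau_ge p (boxE m) x z)
  have ok := okq p.2.1 p.2.2
  refine (Pr_harris ok (Cx_incr (boxE m) x y) (Cx_incr (boxE m) y z)).trans ?_
  exact Pr_mono ok (fun F _ hF => Reach.trans hF.1 hF.2)

end Pool.Agent.D0H24.NC2
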