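import Pool.Agent.D0H24.NC2.Moments

/-!
Assembly of the results on the near-critical two-point function.
-/

set_option autoImplicit false
set_option maxHeartbeats 1000000

namespace Pool.Agent.D0H24.NC2

open H974 Finset MeasureTheory Filter Topology

theorem norm_nv (x : ℤ × ℤ) : ‖x‖ = (nv x : ℝ) := by
  rw [Prod.norm_def, Int.norm_eq_abs, Int.norm_eq_abs]
  unfold nv
  rw [Nat.cast_max, Nat.cast_natAbs, Nat.cast_natAbs, Int.cast_abs, Int.cast_abs]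

theorem dist_nv (x y : ℤ × ℤ) : dist x y = (nv (y - x) : ℝ) := by
  rw [← norm_nv, dist_comm, dist_eq_norm]

/-- the distance to the critical point -/
noncomputable def gap (p : unitInterval) : ℝ := |(p:ℝ) - (pcrit:ℝ)|

theorem gap_eq (p : unitInterval) : gap p = |(p:ℝ) - 1/2| := by
  unfold gap
  rw [pcrit_eq]

theorem tt_gap (p : unitInterval) : tt p = gap p ^ (4/3 : ℝ) := by
  rw [gap_eq]; rfl

theorem gap_range {p : unitInterval} (h : gap p ≤ 1/4) : 1/4 ≤ (p:ℝ) ∧ (p:ℝ) ≤ 3/4 := by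
  rw [gap_eq, abs_le] at h
  constructor <;> linarith [h.1, h.2]

theorem gap_pos {p : unitInterval} (h : p ≠ pcrit) : 0 < gap p := by
  unfold gap
  rw [abs_pos, sub_ne_zero]
  exact fun h' => h (Subtype.ext h')

theorem tt_pow {p : unitInterval} (hp : 0 < gap p) (r : ℝ) :
    (tt p)^(-(r + 43/24)) = gap p ^ (-(43/18 + 4/3 * r)) := by
  rw [tt_gap, ← Real.rpow_mul hp.le]
  congr 1
  ring

/-- the moments -/
noncomputable def moment (p : unitInterval) (r : ℝ) : ℝ := ∑' x : ℤ × ℤ, ‖x‖ ^ r * tauf p 0 x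

theorem mo_eq (p : unitInterval) (r : ℝ) : (fun x : ℤ × ℤ => ‖x‖ ^ r * tauf p 0 x) = mo p r := by
  funext x
  unfold mo
  rw [norm_nv]
  rfl

/-- the correlation length (second moment) -/
noncomputable def xi (p : unitInterval) : ℝ := √(moment p 2 / moment p 0)

theorem part1 {c C : ℝ} (hT : TM c C) {p : unitInterval} (hp : gap p ≤ 1/4) {x y : ℤ × ℤ}
    (hxy : x ≠ y) :
    c * dist x y ^ (-(5/24) : ℝ) * Real.exp (-(C * (gap p ^ (4/3 : ℝ) * dist x y))) ≤ tauf p x y ∧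
    tauf p x y ≤ C * dist x y ^ (-(5/24) : ℝ) *
      Real.exp (-(c * (gap p ^ (4/3 : ℝ) * dist x y))) := by
  obtain ⟨h1, h2⟩ := gap_range hp
  have hv : 1 ≤ nv (y - x) := nv_pos (fun h => hxy (sub_eq_zero.mp h).symm)
  obtain ⟨h3, h4⟩ := hT p h1 h2 (y - x) hv
  rw [dist_nv, tauf_zero, ← tt_gap, mul_comm (tt (p:ℝ))]
  exact ⟨h3, h4⟩

theorem part2 {c C : ℝ}
    (h1 : ∀ p : unitInterval, 1/2 ≤ (p:ℝ) → ∀ v : Vtx, 1 ≤ nv v →
      c * ((nv v:ℝ)^(-(5/24) : ℝ) + ((p:ℝ) - 1/2)^(5/18 : ℝ)) ≤ tau p (0, 0) v)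
    (h2 : ∀ p : unitInterval, 1/2 ≤ (p:ℝ) → ∀ v : Vtx, 1 ≤ nv v →
      tau p (0, 0) v ≤ C * ((nv v:ℝ)^(-(5/24) : ℝ) + ((p:ℝ) - 1/2)^(5/18 : ℝ)))
    {p : unitInterval} (hp : pcrit ≤ p) {x y : ℤ × ℤ} (hxy : x ≠ y) :
    c * (dist x y ^ (-(5/24) : ℝ) + gap p ^ (5/18 : ℝ)) ≤ tau p x y ∧
    tau p x y ≤ C * (dist x y ^ (-(5/24) : ℝ) + gap p ^ (5/18 : ℝ)) := by
  have hp' : (pcrit : ℝ) ≤ p := hp
  rw [pcrit_eq] at hp'
  have hv : 1 ≤ nv (y - x) := nv_pos (fun h => hxy (sub_eq_zero.mp h).symm)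
  rw [dist_nv, tau_zero, gap_eq, abs_of_nonneg (by linarith)]
  exact ⟨h1 p hp' _ hv, h2 p hp' _ hv⟩

theorem part3 {c C : ℝ} (hc : 0 < c) (hC : 0 < C) (hT : TM c C) {p : unitInterval}
    (hp : p < pcrit) (hg : gap p ≤ 1/4) (x : ℤ × ℤ) :
    ∃ φ : ℝ, Tendsto (fun n : ℕ => -Real.log (tau p 0 (n • x)) / n) atTop (𝓝 φ) ∧
      c * gap p ^ (4/3 : ℝ) * ‖x‖ ≤ φ ∧ φ ≤ C * gap p ^ (4/3 : ℝ) * ‖x‖ := by
  obtain ⟨h1, h2⟩ := gap_range hg
  have hp' : (p : ℝ) < pcrit := hp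
  rw [pcrit_eq] at hp'
  rw [norm_nv, ← tt_gap]
  exact rate_low hc hC hT h1 hp'.le x

theorem part4 {c C : ℝ} (hc : 0 < c) (hC : 0 < C) (hT : TM c C) {p : unitInterval}
    (hp : p ≠ pcrit) (hg : gap p ≤ 1/4) {x : ℤ × ℤ} (hx : x ≠ 0) :
    ∀ᶠ n : ℕ in atTop, c/2 * gap p ^ (4/3 : ℝ) * ‖x‖ ≤ -Real.log (tauf p 0 (n • x)) / n ∧
      -Real.log (tauf p 0 (n • x)) / n ≤ 2 * C * gap p ^ (4/3 : ℝ) * ‖x‖ := by
  obtain ⟨h1, h2⟩ := gap_range hg
  rw [norm_nv, ← tt_gap]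
  exact rate_fin hc hC hT h1 h2 (by rw [tt_gap]; exact Real.rpow_pos_of_pos (gap_pos hp) _) hx

theorem part5 {c C : ℝ} (hc : 0 < c) (hC : 0 < C) (hT : TM c C) {r : ℝ} (hr : 0 ≤ r) :
    ∃ K1 K2 : ℝ, 0 < K1 ∧ 0 < K2 ∧ ∀ p : unitInterval, p ≠ pcrit → gap p ≤ 1/4 →
      Summable (fun x : ℤ × ℤ => ‖x‖ ^ r * tauf p 0 x) ∧
      K1 * gap p ^ (-(43/18 + 4/3 * r)) ≤ moment p r ∧
      moment p r ≤ K2 * gap p ^ (-(43/18 + 4/3 * r)) := by
  obtain ⟨K1, K2, hK1, hK2, h⟩ := mo_main hc hC hT hr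
  refine ⟨K1, K2, hK1, hK2, fun p hp hg => ?_⟩
  obtain ⟨h1, h2⟩ := gap_range hg
  have hg0 := gap_pos hp
  have h3 := h p h1 h2 (by rw [tt_gap]; exact Real.rpow_pos_of_pos hg0 _)
  rw [tt_pow hg0] at h3
  unfold moment
  rw [mo_eq]
  exact h3

theorem tendsto_gap : Tendsto gap (𝓝[≠] pcrit) (𝓝[>] 0) := by
  rw [tendsto_nhdsWithin_iff]
  constructor
  · have h : Continuous gap := by
      unfold gap
      exact (continuous_subtype_val.sub continuous_const).abs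
    have h2 := (h.tendsto pcrit).mono_left (nhdsWithin_le_nhds (s := {pcrit}ᶜ))
    have h0 : gap pcrit = 0 := by unfold gap; simp
    rwa [h0] at h2
  · filter_upwards [self_mem_nhdsWithin] with p hp
    exact gap_pos hp

theorem part6 {c C : ℝ} (hc : 0 < c) (hC : 0 < C) (hT : TM c C) :
    Tendsto (fun p : unitInterval => Real.log (xi p) / Real.log (gap p)) (𝓝[≠] pcrit)
      (𝓝 (-(4/3))) := by
  obtain ⟨a1, b1, ha1, hb1, h2⟩ := part5 hc hC hT (r := 2) (by norm_num)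
  obtain ⟨a0, b0, ha0, hb0, h0⟩ := part5 hc hC hT (r := 0) le_rfl
  have hlog : Tendsto (fun p => Real.log (gap p)) (𝓝[≠] pcrit) atBot :=
    Real.tendsto_log_nhdsGT_zero.comp tendsto_gap
  have hsmall : ∀ᶠ p in 𝓝[≠] pcrit, gap p < 1/4 := by
    have h : Tendsto gap (𝓝[≠] pcrit) (𝓝 0) := tendsto_gap.mono_right nhdsWithin_le_nhds
    exact h.eventually (gt_mem_nhds (by norm_num))
  have key : ∀ᶠ p in 𝓝[≠] pcrit, |Real.log (xi p) / Real.log (gap p) - -(4/3)| ≤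
      (|Real.log (a1/b0)| + |Real.log (b1/a0)|) / |Real.log (gap p)| := by
    filter_upwards [hsmall, self_mem_nhdsWithin] with p hp1 hp2
    have hg0 := gap_pos hp2
    obtain ⟨-, m1, m2⟩ := h2 p hp2 hp1.le
    obtain ⟨-, m3, m4⟩ := h0 p hp2 hp1.le
    obtain ⟨g, hg⟩ : ∃ g : ℝ, g = gap p := ⟨_, rfl⟩
    rw [← hg] at m1 m2 m3 m4 hg0 hp1 ⊢
    have hL : Real.log g < 0 := Real.log_neg hg0 (by linarith)
    have hP2 : 0 < g ^ (-(43/18 + 4/3 * (2:ℝ))) := Real.rpow_pos_of_pos hg0 _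
    have hP0 : 0 < g ^ (-(43/18 + 4/3 * (0:ℝ))) := Real.rpow_pos_of_pos hg0 _
    have hM2 : 0 < moment p 2 := lt_of_lt_of_le (by positivity) m1
    have hM0 : 0 < moment p 0 := lt_of_lt_of_le (by positivity) m3
    have hlx : Real.log (xi p) = 1/2 * (Real.log (moment p 2) - Real.log (moment p 0)) := by
      unfold xi
      rw [Real.log_sqrt (by positivity), Real.log_div hM2.ne' hM0.ne']
      ring
    have l1 := Real.log_le_log (by positivity) m1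
    have l2 := Real.log_le_log hM2 m2
    have l3 := Real.log_le_log (by positivity) m3
    have l4 := Real.log_le_log hM0 m4
    rw [Real.log_mul ha1.ne' hP2.ne', Real.log_rpow hg0] at l1
    rw [Real.log_mul hb1.ne' hP2.ne', Real.log_rpow hg0] at l2
    rw [Real.log_mul ha0.ne' hP0.ne', Real.log_rpow hg0] at l3
    rw [Real.log_mul hb0.ne' hP0.ne', Real.log_rpow hg0] at l4
    have e1 : Real.log (a1/b0) = Real.log a1 - Real.log b0 := Real.log_div ha1.ne' hb0.ne'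
    have e2 : Real.log (b1/a0) = Real.log b1 - Real.log a0 := Real.log_div hb1.ne' ha0.ne'
    have hL0 : 0 < |Real.log g| := abs_pos.mpr hL.ne
    have e3 : Real.log (xi p) / Real.log g - -(4/3) =
        (Real.log (xi p) + 4/3 * Real.log g) / Real.log g := by
      have hLne : Real.log g ≠ 0 := hL.ne
      rw [add_div, mul_div_assoc, div_self hLne]
      ring
    rw [e3, abs_div]
    apply div_le_div_of_nonneg_right _ hL0.le
    rw [abs_le]
    have n1 := neg_abs_le (Real.log (a1/b0))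
    have n2 := le_abs_self (Real.log (b1/a0))
    have n3 := abs_nonneg (Real.log (a1/b0))
    have n4 := abs_nonneg (Real.log (b1/a0))
    rw [hlx]
    constructor
    · linarith
    · linarith
  rw [tendsto_iff_norm_sub_tendsto_zero]
  have hz : Tendsto (fun p => (|Real.log (a1/b0)| + |Real.log (b1/a0)|) / |Real.log (gap p)|)
      (𝓝[≠] pcrit) (𝓝 0) :=
    Tendsto.div_atTop tendsto_const_nhds (tendsto_abs_atBot_atTop.comp hlog)
  refine squeeze_zero' (Eventually.of_forall fun p => norm_nonneg _) ?_ hz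
  filter_upwards [key] with p hp
  rw [Real.norm_eq_abs]
  exact hp

end Pool.Agent.D0H24.NC2
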