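import Pool.Agent.D0H24.NC2.Num
import Pool.Agent.W424.NC.Win
import Pool.Agent.Y554.NC.Theta

/-!
The near-critical inputs from the library.
-/

set_option autoImplicit false
set_option maxHeartbeats 1000000

namespace Pool.Agent.D0H24.NC2

open H974 Finset MeasureTheory

theorem tt_low {p : ℝ} (hp : p ≤ 1/2) : tt p = (1/2 - p)^(4/3 : ℝ) := by
  unfold tt
  rw [abs_sub_comm, abs_of_nonneg (by linarith)]

theorem tt_high {p : ℝ} (hp : 1/2 ≤ p) : tt p = (1/2 - (1 - p))^(4/3 : ℝ) := by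
  unfold tt
  rw [abs_of_nonneg (by linarith)]
  congr 1
  ring

theorem exp_le1 {C x : ℝ} (hC : 0 < C) (hx : 0 ≤ x) : Real.exp (-(C * x)) ≤ 1 := by
  rw [Real.exp_le_one_iff]
  have : 0 ≤ C * x := by positivity
  linarith

theorem half_zero : ((1:ℝ)/2 - 1/2)^(4/3 : ℝ) = 0 := by
  rw [sub_self]
  exact Real.zero_rpow (by norm_num)

theorem inL1 : InL1 := by
  obtain ⟨c1, C1, hc1, hC1, a1⟩ := Pool.Agent.W424.NC.arm_lower
  obtain ⟨c2, C2, hc2, hC2, a2⟩ := Pool.Agent.W424.NC.arm_crit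
  refine ⟨min c1 c2, C1, lt_min hc1 hc2, hC1, ?_⟩
  intro p hp1 hp2 n hn
  have hn0 : (0:ℝ) < n := by exact_mod_cast hn
  have hnp : 0 < (n:ℝ)^(-(5/48) : ℝ) := Real.rpow_pos_of_pos hn0 _
  rcases le_or_gt p (1/2) with hle | hgt
  · refine le_trans ?_ (a1 p n hp1 hle hn)
    rw [tt_low hle, neg_mul]
    apply mul_le_mul_of_nonneg_right _ (Real.exp_pos _).le
    exact mul_le_mul_of_nonneg_right (min_le_left _ _) hnp.le
  · refine le_trans ?_ ((a2 n hn).1.trans (arm_mono_param (by norm_num) hgt.le (by linarith) n))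
    have ht := tt_nonneg p
    calc min c1 c2 * (n:ℝ)^(-(5/48) : ℝ) * Real.exp (-(C1 * (n * tt p)))
        ≤ c2 * (n:ℝ)^(-(5/48) : ℝ) * 1 := by
          apply mul_le_mul _ (exp_le1 hC1 (by positivity)) (Real.exp_pos _).le (by positivity)
          exact mul_le_mul_of_nonneg_right (min_le_right _ _) hnp.le
      _ = _ := mul_one _

theorem inL2 : InL2 := by
  obtain ⟨c, C, hc, hC, a⟩ := Pool.Agent.W424.NC.win_lower 16 (by norm_num)
  refine ⟨c, C, hc, hC, ?_⟩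
  intro p hp1 hp2 w h hw hh1 hwh hhw
  rcases le_or_gt p (1/2) with hle | hgt
  · have := a p hp1 hle w h hw hh1 hwh hhw
    rw [tt_low hle]
    exact this
  · have h1 := a (1/2) (by norm_num) le_rfl w h hw hh1 hwh hhw
    rw [half_zero, mul_zero, mul_zero, neg_zero, Real.exp_zero, mul_one] at h1
    have h2 : hh (1/2) w h ≤ hh p w h := hh_mono_param (by norm_num) hgt.le (by linarith) _ _
    have ht := tt_nonneg p
    have h3 : c * Real.exp (-(C * (w * tt p))) ≤ c * 1 :=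
      mul_le_mul_of_nonneg_left (exp_le1 hC (by positivity)) hc.le
    linarith

theorem inL3 : InL3 := by
  obtain ⟨c, C, hc, hC, a⟩ := Pool.Agent.W424.NC.win_lower_dual 16 (by norm_num)
  refine ⟨c, C, hc, hC, ?_⟩
  intro p hp1 hp2 w h hw hh1 hwh hhw
  rcases le_or_gt (1/2) p with hge | hlt
  · have h1 := a (1 - p) (by linarith) (by linarith) w h hw hh1 hwh hhw
    rw [sub_sub_cancel] at h1
    rw [tt_high hge]
    exact h1
  · have h1 := a (1/2) (by norm_num) le_rfl w h hw hh1 hwh hhw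
    rw [half_zero, mul_zero, mul_zero, neg_zero, Real.exp_zero, mul_one] at h1
    have e : (1:ℝ) - 1/2 = 1/2 := by norm_num
    rw [e] at h1
    have h2 : hh p w h ≤ hh (1/2) w h := hh_mono_param (by linarith) hlt.le (by norm_num) _ _
    have ht := tt_nonneg p
    have h3 : c * Real.exp (-(C * (w * tt p))) ≤ c * 1 :=
      mul_le_mul_of_nonneg_left (exp_le1 hC (by positivity)) hc.le
    linarith

theorem inU2 : InU2 := by
  obtain ⟨c, C, hc, hC, a⟩ := Pool.Agent.W424.NC.win_upper_dual 16 (by norm_num)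
  refine ⟨c, C, hc, hC, ?_⟩
  intro p hp1 hp2 w h hw hh1 hwh hhw
  have h1 := a (1 - p) (by linarith) (by linarith) w h hw hh1 hwh hhw
  rw [sub_sub_cancel] at h1
  rw [tt_high hp1]
  exact h1

theorem inU1' : InU1' := by
  obtain ⟨c, C, hc, hC, a⟩ := Pool.Agent.W424.NC.arm_upper
  refine ⟨c, C, hc, hC, ?_⟩
  intro p hp1 hp2 n hn
  have := a p (by linarith) hp2 n hn
  rw [tt_low hp2]
  exact this

theorem inU1 : InU1 := by
  obtain ⟨κ, β, hκ, hβ, hst⟩ := Pool.Agent.W424.NC.armS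
  obtain ⟨cc, C, hcc, hC, harm⟩ := Pool.Agent.W424.NC.arm_crit
  refine ⟨3 * C * (1 + (2:ℝ)^(5/48 : ℝ) * β^(-(5/36) : ℝ)) + β^(-(5/36) : ℝ), by positivity, ?_⟩
  intro p hp1 hp2 n hn
  have hn0 : (0:ℝ) < n := by exact_mod_cast hn
  have hn1 : (1:ℝ) ≤ n := by exact_mod_cast hn
  have hnp : 0 < (n:ℝ)^(-(5/48) : ℝ) := Real.rpow_pos_of_pos hn0 _
  obtain ⟨s, hs⟩ : ∃ s : ℝ, s = |p - 1/2| := ⟨_, rfl⟩
  have hs0 : 0 ≤ s := by rw [hs]; exact abs_nonneg _
  have htt : tt p = s^(4/3 : ℝ) := by rw [hs]; rfl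
  have hts : (tt p)^(5/48 : ℝ) = s^(5/36 : ℝ) := by
    rw [htt, ← Real.rpow_mul hs0]
    norm_num
  have hnt : (n:ℝ)^(-(5/48) : ℝ) * ((n:ℝ) * tt p)^(5/48 : ℝ) = s^(5/36 : ℝ) := by
    rw [Real.mul_rpow hn0.le (tt_nonneg p), hts, ← mul_assoc, ← Real.rpow_add hn0]
    norm_num
  have hy : 0 ≤ ((n:ℝ) * tt p)^(5/48 : ℝ) :=
    Real.rpow_nonneg (mul_nonneg hn0.le (tt_nonneg p)) _
  have hb : 0 < β^(-(5/36) : ℝ) := Real.rpow_pos_of_pos hβ _
  have h2 : (0:ℝ) < (2:ℝ)^(5/48 : ℝ) := by positivity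
  have hs36 : 0 ≤ s^(5/36 : ℝ) := Real.rpow_nonneg hs0 _
  have hcomb : ∀ A B : ℝ, 0 ≤ A → 0 ≤ B →
      A ≤ 3 * C * (1 + (2:ℝ)^(5/48 : ℝ) * β^(-(5/36) : ℝ)) + β^(-(5/36) : ℝ) →
      B ≤ 3 * C * (1 + (2:ℝ)^(5/48 : ℝ) * β^(-(5/36) : ℝ)) + β^(-(5/36) : ℝ) →
      arm p n ≤ A * (n:ℝ)^(-(5/48) : ℝ) + B * s^(5/36 : ℝ) →
      arm p n ≤ (3 * C * (1 + (2:ℝ)^(5/48 : ℝ) * β^(-(5/36) : ℝ)) + β^(-(5/36) : ℝ)) *
        (n:ℝ)^(-(5/48) : ℝ) * (1 + ((n:ℝ) * tt p)^(5/48 : ℝ)) := by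
    intro A B hA0 hB0 hA hB h
    refine h.trans ?_
    rw [mul_add, mul_one, mul_assoc _ ((n:ℝ)^(-(5/48) : ℝ)) (((n:ℝ) * tt p)^(5/48 : ℝ)), hnt]
    exact add_le_add (mul_le_mul_of_nonneg_right hA hnp.le) (mul_le_mul_of_nonneg_right hB hs36)
  have hKpos : 0 ≤ 3 * C * ((2:ℝ)^(5/48 : ℝ) * β^(-(5/36) : ℝ)) := by positivity
  have h3C : 0 ≤ 3 * C := by positivity
  by_cases hcase : s ≤ β * (n:ℝ)^(-(3/4) : ℝ)
  · apply hcomb (3 * C) 0 h3C le_rfl (by linarith) (by linarith)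
    have k1 := (hst n hn p (by rw [← hs]; exact hcase)).2.1
    have k2 := (harm n hn).2
    rw [zero_mul, add_zero]
    calc arm p n ≤ 3 * arm (1/2) n := k1
      _ ≤ 3 * (C * (n:ℝ)^(-(5/48) : ℝ)) := by linarith
      _ = _ := by ring
  · push Not at hcase
    have hspos : 0 < s := lt_of_le_of_lt (by positivity) hcase
    rcases le_or_gt s β with hsb | hsb
    · obtain ⟨N, hN1, hN2, hN3, hN4⟩ := Pool.Agent.Y554.NC.scale_exists hβ hspos hsb
      have hN0 : (0:ℝ) < N := by exact_mod_cast hN1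
      have hNn : N ≤ n := by
        by_contra hcon
        push Not at hcon
        have h1 : (n:ℝ) ≤ N := by exact_mod_cast hcon.le
        have h4 : (N:ℝ)^(-(3/4) : ℝ) ≤ (n:ℝ)^(-(3/4) : ℝ) :=
          Real.rpow_le_rpow_of_nonpos hn0 h1 (by norm_num)
        have := mul_le_mul_of_nonneg_left h4 hβ.le
        linarith
      apply hcomb 0 (3 * C * ((2:ℝ)^(5/48 : ℝ) * β^(-(5/36) : ℝ))) le_rfl hKpos
        (by linarith) (by linarith)
      have k0 : arm p n ≤ arm p N := arm_anti (by linarith) (by linarith) hNn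
      have k1 := (hst N hN1 p (by rw [← hs]; exact hN2)).2.1
      have k2 := (harm N hN1).2
      have k3 : (N:ℝ)^(-(5/48) : ℝ) ≤ (2:ℝ)^(5/48 : ℝ) * β^(-(5/36) : ℝ) * s^(5/36 : ℝ) := by
        have h5 : ((β/s)^(4/3 : ℝ) / 2) ≤ N := by linarith
        have h6 : 0 < (β/s)^(4/3 : ℝ) / 2 := by positivity
        have h7 := Real.rpow_le_rpow_of_nonpos h6 h5 (by norm_num : -(5/48 : ℝ) ≤ 0)
        refine h7.trans (le_of_eq ?_)
        rw [Real.div_rpow (by positivity) (by norm_num), ← Real.rpow_mul (by positivity),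
          Real.div_rpow hβ.le hs0, Real.rpow_neg (by norm_num : (0:ℝ) ≤ 2)]
        have e1 : (4/3 : ℝ) * -(5/48) = -(5/36) := by norm_num
        rw [e1, Real.rpow_neg hs0]
        field_simp
      rw [zero_mul, zero_add]
      calc arm p n ≤ 3 * arm (1/2) N := k0.trans k1
        _ ≤ 3 * (C * (N:ℝ)^(-(5/48) : ℝ)) := by linarith
        _ ≤ 3 * (C * ((2:ℝ)^(5/48 : ℝ) * β^(-(5/36) : ℝ) * s^(5/36 : ℝ))) := by
            apply mul_le_mul_of_nonneg_left _ (by norm_num)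
            exact mul_le_mul_of_nonneg_left k3 hC.le
        _ = _ := by ring
    · apply hcomb 0 (β^(-(5/36) : ℝ)) le_rfl hb.le (by linarith) (by linarith)
      rw [zero_mul, zero_add]
      have h8 : β^(5/36 : ℝ) ≤ s^(5/36 : ℝ) := Real.rpow_le_rpow hβ.le hsb.le (by norm_num)
      have h9 : 1 ≤ β^(-(5/36) : ℝ) * s^(5/36 : ℝ) := by
        rw [Real.rpow_neg hβ.le, ← div_eq_inv_mul, le_div_iff₀ (Real.rpow_pos_of_pos hβ _), one_mul]
        exact h8
      exact (arm_le_one (by linarith) (by linarith) n).trans h9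

/-- **The near-critical two-point function of the finite clusters.** -/
theorem tauf_main : ∃ c C : ℝ, 0 < c ∧ 0 < C ∧
    ∀ p : unitInterval, 1/4 ≤ (p:ℝ) → (p:ℝ) ≤ 3/4 → ∀ v : Vtx, 1 ≤ nv v →
      c * (nv v:ℝ)^(-(5/24) : ℝ) * Real.exp (-(C * (nv v * tt p))) ≤ tauf p (0, 0) v ∧
      tauf p (0, 0) v ≤ C * (nv v:ℝ)^(-(5/24) : ℝ) * Real.exp (-(c * (nv v * tt p))) := by
  obtain ⟨c1, C1, hc1, hC1, a1⟩ := low0 inL1 inL2 inL3
  obtain ⟨c2, C2, hc2, hC2, a2⟩ := up2 inU1 inU1' inU2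
  refine ⟨min c1 c2, max C1 C2, lt_min hc1 hc2, lt_max_of_lt_left hC1, ?_⟩
  intro p hp1 hp2 v hv
  have hn0 : (0:ℝ) < nv v := by exact_mod_cast hv
  have hnp : 0 < (nv v:ℝ)^(-(5/24) : ℝ) := Real.rpow_pos_of_pos hn0 _
  have ht := tt_nonneg (p:ℝ)
  have hy : 0 ≤ (nv v:ℝ) * tt p := by positivity
  constructor
  · have hin : inR (-(nv v : ℤ)) (nv v) (-(nv v : ℤ)) (nv v) v := by
      unfold inR nv; omega
    refine le_trans ?_ (a1 p hp1 hp2 (nv v) hv v hin)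
    apply mul_le_mul _ _ (Real.exp_pos _).le (by positivity)
    · exact mul_le_mul_of_nonneg_right (min_le_left _ _) hnp.le
    · apply Real.exp_le_exp.mpr
      have := mul_le_mul_of_nonneg_right (le_max_left C1 C2) hy
      linarith
  · refine (a2 p hp1 hp2 v hv).trans ?_
    have hC : 0 < max C1 C2 := lt_max_of_lt_left hC1
    apply mul_le_mul _ _ (Real.exp_pos _).le (by positivity)
    · exact mul_le_mul_of_nonneg_right (le_max_right _ _) hnp.le
    · apply Real.exp_le_exp.mpr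
      have := mul_le_mul_of_nonneg_right (min_le_right c1 c2) hy
      linarith

end Pool.Agent.D0H24.NC2
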