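import Pool.Agent.D0H24.NC2.Base

/-!
Lower bounds for the two-point functions in terms of arms and crossings of rectangles.
-/

set_option autoImplicit false
set_option maxHeartbeats 1000000

namespace Pool.Agent.D0H24.NC2

open H974 Finset MeasureTheory

/-- the edges of the box of radius `r` around `v` -/
noncomputable def bx (v : Vtx) (r : ℕ) : Finset Edg := RE (v.1 - r) (v.1 + r) (v.2 - r) (v.2 + r)

/-- an open path from `v` to distance `r`, inside the box of radius `r` around `v` -/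
def Aat (v : Vtx) (r : ℕ) (F : Finset Edg) : Prop :=
  ∃ w : Vtx, inR (v.1 - r) (v.1 + r) (v.2 - r) (v.2 + r) w ∧
    (w.1 = v.1 - r ∨ w.1 = v.1 + r ∨ w.2 = v.2 - r ∨ w.2 = v.2 + r) ∧
      Reach (↑F ∩ ↑(bx v r)) v w

theorem Aat_incr (S : Finset Edg) (v : Vtx) (r : ℕ) : IncrE S (Aat v r) := by
  rintro F G h _ ⟨w, k1, k2, k3⟩
  exact ⟨w, k1, k2, k3.mono (Set.inter_subset_inter_left _ (by exact_mod_cast h))⟩

theorem Aat_local {v : Vtx} {r : ℕ} {F S : Finset Edg} (hS : bx v r ⊆ S) :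
    Aat v r F ↔ Aat v r (F ∩ S) := by
  unfold Aat
  rw [coe_inter_eq hS]

theorem pr_Aat (q : ℝ) {v : Vtx} {r : ℕ} {S : Finset Edg} (hS : bx v r ⊆ S) :
    Pr (fun _ => q) S (Aat v r) = arm q r := by
  obtain ⟨a, b⟩ := v
  have s1 : Pr (fun _ => q) S (Aat (a, b) r) = Pr (fun _ => q) (bx (a, b) r) (Aat (a, b) r) :=
    Pr_local hS (fun F _ => Aat_local (Finset.Subset.refl _))
  have hBeq : bx (a, b) r = (trl a b).mp (boxE r) := by
    unfold bx boxE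
    rw [trl_RE]
    congr 1 <;> ring
  rw [s1, hBeq, LSym.pr]
  unfold arm
  apply Pr_congr
  intro F _
  have himg : (trl a b).φ '' ((↑F : Set Edg) ∩ ↑(boxE r))
      = ↑((trl a b).mp F) ∩ ↑(bx (a, b) r) := by
    rw [LSym.image_inter, ← hBeq]
  constructor
  · rintro ⟨w, k1, k2, k3⟩
    refine ⟨(w.1 - a, w.2 - b), ?_, ?_⟩
    · unfold onB inR at *
      simp only at *
      omega
    · rw [← (trl a b).reach_iff, himg, trl_ψ, trl_ψ]
      simpa using k3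
  · rintro ⟨⟨w1, w2⟩, k1, k2⟩
    refine ⟨(w1 + a, w2 + b), ?_, ?_, ?_⟩
    · unfold onB inR at *
      simp only at *
      omega
    · unfold onB inR at *
      simp only at *
      omega
    · rw [← (trl a b).reach_iff, himg, trl_ψ] at k2
      simpa using k2

theorem Aat_exit {v : Vtx} {r : ℕ} {R : ℤ} {F : Finset Edg} (h : Aat v r F)
    (hv : inR (-R) R (-R) R v) (h1 : R ≤ r + v.1) (h2 : R ≤ r - v.1) (h3 : R ≤ r + v.2)
    (h4 : R ≤ r - v.2) :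
    ∃ w : Vtx, (w.1 = -R ∨ w.1 = R ∨ w.2 = -R ∨ w.2 = R) ∧ Reach (↑F ∩ ↑(RE (-R) R (-R) R)) v w := by
  obtain ⟨w, k1, k2, k3⟩ := h
  obtain ⟨w', l1, l2, l3⟩ := first_exit (a := -R) (b := R) (c := -R) (d := R) hv k3 (by omega)
  refine ⟨w', l2, l3.mono ?_⟩
  rintro e ⟨⟨k4, -⟩, k5⟩
  exact ⟨k4, k5⟩

theorem two_low {q : ℝ} (h0 : 0 ≤ q) (h1 : q ≤ 1) {n : ℕ} (hn : 1 ≤ n) {v : Vtx}
    (hv : inR (-n) n (-n) n v) :
    (arm q (5 * n))^2 * (hh q (8 * n) (2 * n))^4 ≤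
      Pr (fun _ => q) (boxE (6 * n)) (Cx (0, 0) v) := by
  have ok := okq h0 h1
  have hn' : (1:ℤ) ≤ n := by exact_mod_cast hn
  obtain ⟨S, hS⟩ : ∃ S : Finset Edg, S = boxE (6 * n) := ⟨_, rfl⟩
  rw [← hS]
  unfold inR at hv
  have s1 : bx (0, 0) (5 * n) ⊆ S := by
    rw [hS]; unfold bx boxE
    apply RE_subset <;> push_cast <;> omega
  have s2 : bx v (5 * n) ⊆ S := by
    rw [hS]; unfold bx boxE
    apply RE_subset <;> push_cast <;> omega
  have s3 : RE (-(4 * n : ℤ)) (4 * n) (-(4 * n)) (4 * n) ⊆ S := by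
    rw [hS]; unfold boxE
    apply RE_subset <;> push_cast <;> omega
  have e1 := pr_Aat q s1
  have e2 := pr_Aat q s2
  have e3 := pr_Circ h0 h1 (R1 := 2 * (n:ℤ)) (R2 := 4 * n) (by omega) (by omega) s3
  have d1 : 2 * (4 * (n:ℤ)) = 8 * n := by ring
  have d2 : 4 * (n:ℤ) - 2 * n = 2 * n := by ring
  rw [d1, d2] at e3
  have i1 := Pr_harris ok (Aat_incr S (0, 0) (5 * n)) (Aat_incr S v (5 * n))
  have hC : IncrE S (Circ (2 * (n:ℤ)) (4 * n)) := fun F G h _ hF => hF.mono h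
  have hAB : IncrE S (fun F => Aat (0, 0) (5 * n) F ∧ Aat v (5 * n) F) :=
    fun F G h h' hF => ⟨Aat_incr S _ _ F G h h' hF.1, Aat_incr S _ _ F G h h' hF.2⟩
  have i2 := Pr_harris ok hAB hC
  have i3 : Pr (fun _ => q) S (fun F => (Aat (0, 0) (5 * n) F ∧ Aat v (5 * n) F) ∧
      Circ (2 * (n:ℤ)) (4 * n) F) ≤ Pr (fun _ => q) S (Cx (0, 0) v) := by
    apply Pr_mono ok
    rintro F _ ⟨⟨k1, k2⟩, k3⟩
    obtain ⟨z, hz⟩ := circ_meet (by omega) (by omega) k3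
    obtain ⟨w, l1, l2⟩ := Aat_exit (R := 4 * n) k1 (by unfold inR; simp only; omega)
      (by push_cast; omega) (by push_cast; omega)
      (by push_cast; omega) (by push_cast; omega)
    obtain ⟨w', l1', l2'⟩ := Aat_exit (R := 4 * n) k2 (by unfold inR; omega)
      (by push_cast; omega) (by push_cast; omega) (by push_cast; omega) (by push_cast; omega)
    have m1 := hz (0, 0) w (by unfold inR; simp only; omega) l1 l2
    have m2 := hz v w' (by unfold inR; omega) l1' l2'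
    exact (m1.mono Set.inter_subset_left).trans (m2.mono Set.inter_subset_left).symm
  rw [e1, e2] at i1
  have ha : 0 ≤ arm q (5 * n) := arm_nonneg h0 h1 _
  have hH : 0 ≤ (hh q (8 * n) (2 * n))^4 := pow_nonneg (hh_nonneg h0 h1 _ _) 4
  calc (arm q (5 * n))^2 * (hh q (8 * n) (2 * n))^4
      = (arm q (5 * n) * arm q (5 * n)) * (hh q (8 * n) (2 * n))^4 := by ring
    _ ≤ _ := mul_le_mul i1 e3 hH ((mul_nonneg ha ha).trans i1)
    _ ≤ _ := i2
    _ ≤ _ := i3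

theorem blk_low {q : ℝ} (h0 : 0 ≤ q) (h1 : q ≤ 1) {m : ℕ} (hm : 1 ≤ m) {S : Finset Edg}
    (hS : annE m (2 * m) ⊆ S) :
    (1 - hh q m (4 * m))^4 ≤ Pr (fun _ => q) S (Blk m (2 * m : ℕ)) := by
  have hm' : (1:ℤ) ≤ m := by exact_mod_cast hm
  have ok := okq h0 h1
  obtain ⟨s1, s2, s3, s4⟩ := ann_sub (n := m) (m := 2 * m) (by omega)
  obtain ⟨R2, hR2⟩ : ∃ R2 : ℤ, R2 = ((2 * m : ℕ) : ℤ) := ⟨_, rfl⟩
  rw [← hR2] at s1 s2 s3 s4 ⊢
  have hR2' : R2 = 2 * m := by rw [hR2]; push_cast; ring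
  have e1 := pr_LRc q (s1.trans hS)
  have e2 := pr_LRc q (s2.trans hS)
  have e3 := pr_TBc q (s3.trans hS)
  have e4 := pr_TBc q (s4.trans hS)
  have d1 : R2 - m = m := by omega
  have d2 : R2 - -R2 = 4 * m := by omega
  have d3 : -(m:ℤ) - -R2 = m := by omega
  rw [d1, d2] at e1
  rw [d3, d2] at e2
  rw [d1, d2] at e3
  rw [d3, d2] at e4
  have i1 := Pr_harris_dd ok (LRc_incr S m R2 (-R2) R2) (LRc_incr S (-R2) (-m) (-R2) R2)
  have i2 := Pr_harris_dd ok (TBc_incr S (-R2) R2 m R2) (TBc_incr S (-R2) R2 (-R2) (-m))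
  rw [e1, e2] at i1
  rw [e3, e4] at i2
  have c1 : IncrE S (fun F => LRc m R2 (-R2) R2 F ∨ LRc (-R2) (-m) (-R2) R2 F) :=
    fun F G hFG _ hF => hF.imp (LRc.mono hFG) (LRc.mono hFG)
  have c2 : IncrE S (fun F => TBc (-R2) R2 m R2 F ∨ TBc (-R2) R2 (-R2) (-m) F) :=
    fun F G hFG _ hF => hF.imp (TBc.mono hFG) (TBc.mono hFG)
  have i3 := Pr_harris_dd ok c1 c2
  rw [← Pr_not, ← Pr_not] at i3
  have j1 : Pr (fun _ => q) S (fun F => ¬ (LRc m R2 (-R2) R2 F ∨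
      LRc (-R2) (-m) (-R2) R2 F)) = Pr (fun _ => q) S (fun F => ¬ LRc m R2 (-R2) R2 F ∧
      ¬ LRc (-R2) (-m) (-R2) R2 F) := Pr_congr (fun F _ => not_or)
  have j2 : Pr (fun _ => q) S (fun F => ¬ (TBc (-R2) R2 m R2 F ∨
      TBc (-R2) R2 (-R2) (-m) F)) = Pr (fun _ => q) S (fun F => ¬ TBc (-R2) R2 m R2 F ∧
      ¬ TBc (-R2) R2 (-R2) (-m) F) := Pr_congr (fun F _ => not_or)
  rw [j1, j2] at i3
  obtain ⟨z, hz⟩ : ∃ z : ℝ, z = 1 - hh q m (4 * m) := ⟨_, rfl⟩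
  have hz0 : 0 ≤ z := by rw [hz]; have := hh_le_one h0 h1 m (4 * m); linarith
  rw [← hz] at i1 i2 ⊢
  have k2 : (z * z) * (z * z) ≤ _ := mul_le_mul i1 i2 (mul_nonneg hz0 hz0)
    ((mul_nonneg hz0 hz0).trans i1)
  calc z^4 = (z * z) * (z * z) := by ring
    _ ≤ _ := k2
    _ ≤ _ := i3

/-- Lower bound for the two-point function of the finite clusters. -/
theorem tauf_low (p : unitInterval) {n : ℕ} (hn : 1 ≤ n) {v : Vtx} (hv : inR (-n) n (-n) n v) :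
    ((arm p (5 * n))^2 * (hh p (8 * n) (2 * n))^4) *
      (1 - hh p ((6 * n : ℕ) : ℤ) (4 * (6 * n : ℕ)))^4 ≤ tauf p (0, 0) v := by
  have h0 := p.2.1
  have h1 := p.2.2
  have ok := okq h0 h1
  obtain ⟨m, hm⟩ : ∃ m : ℕ, m = 6 * n := ⟨_, rfl⟩
  have a1 := two_low h0 h1 hn hv
  have a2 := blk_low h0 h1 (m := m) (by omega) (S := boxE (2 * m)) (Finset.sdiff_subset)
  rw [← hm] at a1 ⊢
  have hsub : boxE m ⊆ boxE (2 * m) := boxE_mono (by omega)
  have b1 : Pr (fun _ => (p:ℝ)) (boxE (2 * m)) (fun F => Cx (0, 0) v (F ∩ boxE m)) =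
      Pr (fun _ => (p:ℝ)) (boxE m) (Cx (0, 0) v) := by
    rw [Pr_local hsub (fun F _ => by rw [Finset.inter_assoc, Finset.inter_self])]
    apply Pr_congr
    intro F hF
    rw [Finset.inter_eq_left.mpr hF]
  have b2 := Pr_indep (p := fun _ => (p:ℝ)) (U := boxE (2 * m)) (S := boxE m)
    (T := annE m (2 * m)) hsub Finset.sdiff_subset (Finset.disjoint_sdiff)
    (A := fun F => Cx (0, 0) v (F ∩ boxE m)) (B := Blk m (2 * m : ℕ))
    (fun F _ => by simp only [Finset.inter_assoc, Finset.inter_self])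
    (fun F _ => Blk_local (by omega) (Finset.Subset.refl _) F)
  rw [b1] at b2
  have hz0 : 0 ≤ 1 - hh p m (4 * m) := by have := hh_le_one h0 h1 m (4 * m); linarith
  have c1 : ((arm p (5 * n))^2 * (hh p (8 * n) (2 * n))^4) * (1 - hh p m (4 * m))^4 ≤
      Pr (fun _ => (p:ℝ)) (boxE (2 * m)) (fun F => Cx (0, 0) v (F ∩ boxE m) ∧
        Blk m (2 * m : ℕ) F) := by
    rw [b2]
    exact mul_le_mul a1 a2 (pow_nonneg hz0 4) (Pr_nonneg ok _ _)
  refine c1.trans ?_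
  rw [← law_event]
  unfold tauf
  apply measureReal_mono _ (measure_ne_top _ _)
  rintro ω ⟨k1, k2⟩
  constructor
  · rw [open_reach]
    have k3 : Reach (↑(FF (boxE (2 * m)) ω ∩ boxE m) : Set Edg) (0, 0) v := k1
    refine k3.mono ?_
    rw [Finset.coe_inter, FF_coe]
    exact Set.inter_subset_left.trans Set.inter_subset_left
  · have hfin : (Set.Icc (-((2 * m : ℕ):ℤ)) ((2 * m : ℕ):ℤ) ×ˢ
        Set.Icc (-((2 * m : ℕ):ℤ)) ((2 * m : ℕ):ℤ)).Finite :=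
      (Set.finite_Icc _ _).prod (Set.finite_Icc _ _)
    refine hfin.subset ?_
    intro w hw
    by_contra hcon
    have hw' : Reach (opn ω) (0, 0) w := (open_reach ω _ _).mp hw
    obtain ⟨M, hM⟩ := reach_bx hw'
    have hM' := hM (max M (2 * m)) (le_max_left _ _)
    rw [← FF_coe] at hM'
    have k4 := not_blk_of_arm (F := FF (boxE (max M (2 * m))) ω) (R1 := m)
      (R2 := ((2 * m : ℕ) : ℤ)) (by positivity) (by push_cast; omega) hM' (by
        simp only [Set.mem_prod, Set.mem_Icc] at hcon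
        omega)
    apply k4
    have hs : annE m (2 * m) ⊆ boxE (2 * m) := Finset.sdiff_subset
    rw [Blk_local (by omega) hs]
    have e : FF (boxE (max M (2 * m))) ω ∩ boxE (2 * m) = FF (boxE (2 * m)) ω := by
      ext e
      rw [Finset.mem_inter, mem_FF, mem_FF]
      constructor
      · rintro ⟨⟨-, h3⟩, h4⟩; exact ⟨h4, h3⟩
      · rintro ⟨h3, h4⟩
        exact ⟨⟨boxE_mono (le_max_right _ _) h3, h4⟩, h3⟩
    rw [e]
    exact k2

end Pool.Agent.D0H24.NC2
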