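import Pool.Agent.D0H24.NC2.Above

/-!
Moments of the finite clusters near the critical point.
-/

set_option autoImplicit false
set_option maxHeartbeats 1000000

namespace Pool.Agent.D0H24.NC2

open H974 Finset MeasureTheory Filter Topology

/-- the sphere of radius `n` -/
noncomputable def sph (n : ℕ) : Finset Vtx :=
  (Icc (-(n:ℤ)) n ×ˢ {-(n:ℤ), (n:ℤ)}) ∪ ({-(n:ℤ), (n:ℤ)} ×ˢ Icc (-(n:ℤ)) n)

theorem mem_sph {x : Vtx} {n : ℕ} (h : nv x = n) : x ∈ sph n := by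
  obtain ⟨a, b⟩ := x
  unfold nv at h
  unfold sph
  simp only [Finset.mem_union, Finset.mem_product, Finset.mem_Icc, Finset.mem_insert,
    Finset.mem_singleton] at h ⊢
  omega

theorem card_sph {n : ℕ} (hn : 1 ≤ n) : (sph n).card ≤ 12 * n := by
  have h1 : (Icc (-(n:ℤ)) n).card = 2 * n + 1 := by
    rw [Int.card_Icc]; omega
  have h2 : ({-(n:ℤ), (n:ℤ)} : Finset ℤ).card ≤ 2 := Finset.card_le_two
  unfold sph
  refine (Finset.card_union_le _ _).trans ?_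
  rw [Finset.card_product, Finset.card_product, h1]
  have h3 : (2 * n + 1) * ({-(n:ℤ), (n:ℤ)} : Finset ℤ).card ≤ (2 * n + 1) * 2 :=
    Nat.mul_le_mul_left _ h2
  have h4 : ({-(n:ℤ), (n:ℤ)} : Finset ℤ).card * (2 * n + 1) ≤ 2 * (2 * n + 1) :=
    Nat.mul_le_mul_right _ h2
  omega

theorem pow_exp_bound {b c : ℝ} (hc : 0 < c) (hb : 0 ≤ b) : ∃ K : ℝ, 1 ≤ K ∧ ∀ y : ℝ, 0 ≤ y →
    y^b * Real.exp (-(c * y)) ≤ K * Real.exp (-(c/2 * y)) := by
  obtain ⟨k, hk⟩ := exists_nat_ge b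
  refine ⟨1 + (k.factorial : ℝ) * (2/c)^k, ?_, ?_⟩
  · have : 0 ≤ (k.factorial : ℝ) * (2/c)^k := by positivity
    linarith
  intro y hy
  have h1 : y^b ≤ 1 + y^k := by
    rcases le_or_gt y 1 with h | h
    · have h2 := Real.rpow_le_one hy h hb
      have h3 : 0 ≤ y^k := pow_nonneg hy k
      linarith
    · have h2 := Real.rpow_le_rpow_of_exponent_le h.le hk
      rw [Real.rpow_natCast] at h2
      linarith
  have h4 : y^k ≤ (k.factorial : ℝ) * (2/c)^k * Real.exp (c/2 * y) := by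
    have h5 := Real.pow_div_factorial_le_exp (c/2 * y) (by positivity) k
    rw [div_le_iff₀ (by positivity)] at h5
    have h6 : y^k = (2/c)^k * (c/2 * y)^k := by
      rw [← mul_pow]
      congr 1
      field_simp
    rw [h6]
    calc (2/c)^k * (c/2 * y)^k ≤ (2/c)^k * (Real.exp (c/2 * y) * (k.factorial : ℝ)) :=
          mul_le_mul_of_nonneg_left h5 (by positivity)
      _ = _ := by ring
  have h7 : 1 ≤ Real.exp (c/2 * y) := Real.one_le_exp (by positivity)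
  have h8 : y^b ≤ (1 + (k.factorial : ℝ) * (2/c)^k) * Real.exp (c/2 * y) := by
    have : 0 ≤ (k.factorial : ℝ) * (2/c)^k := by positivity
    nlinarith
  calc y^b * Real.exp (-(c * y))
      ≤ ((1 + (k.factorial : ℝ) * (2/c)^k) * Real.exp (c/2 * y)) * Real.exp (-(c * y)) :=
        mul_le_mul_of_nonneg_right h8 (Real.exp_pos _).le
    _ = (1 + (k.factorial : ℝ) * (2/c)^k) * (Real.exp (c/2 * y) * Real.exp (-(c * y))) := by ring
    _ = _ := by
        rw [← Real.exp_add]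
        congr 2
        ring

/-- the summand -/
noncomputable def mo (p : unitInterval) (r : ℝ) (x : Vtx) : ℝ := (nv x : ℝ)^r * tauf p (0, 0) x

theorem mo_nonneg (p : unitInterval) (r : ℝ) (x : Vtx) : 0 ≤ mo p r x :=
  mul_nonneg (Real.rpow_nonneg (Nat.cast_nonneg _) _) (tauf_nonneg _ _ _)

theorem mo_upper {c C : ℝ} (hc : 0 < c) (hC : 0 < C) (hT : TM c C) {r : ℝ} (hr : 0 ≤ r) :
    ∃ K : ℝ, 0 < K ∧ ∀ p : unitInterval, 1/4 ≤ (p:ℝ) → (p:ℝ) ≤ 3/4 → 0 < tt p →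
      ∀ F : Finset Vtx, ∑ x ∈ F, mo p r x ≤ K * (tt p)^(-(r + 43/24)) := by
  obtain ⟨Kb, hKb, hb⟩ := pow_exp_bound (b := r + 19/24) hc (by linarith)
  refine ⟨1 + 12 * C * Kb * ((1 + c/2) * (2/c)), by positivity, ?_⟩
  intro p hp1 hp2 ht F
  have ht1 := tt_le_one p.2.1 p.2.2
  obtain ⟨t, htt⟩ : ∃ t : ℝ, t = tt p := ⟨_, rfl⟩
  rw [← htt] at ht ht1 ⊢
  obtain ⟨N, hN⟩ : ∃ N : ℕ, N = F.sup nv := ⟨_, rfl⟩
  have hmaps : ∀ x ∈ F, nv x ∈ range (N + 1) := by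
    intro x hx
    rw [Finset.mem_range, hN, Nat.lt_succ_iff]
    exact Finset.le_sup hx
  rw [← Finset.sum_fiberwise_of_maps_to hmaps]
  rw [Finset.sum_range_succ' _ N]
  -- the term at the origin
  have h0 : ∑ x ∈ F.filter (fun x => nv x = 0), mo p r x ≤ 1 := by
    have hsub : F.filter (fun x => nv x = 0) ⊆ {((0, 0) : Vtx)} := by
      intro x hx
      rw [Finset.mem_filter] at hx
      rw [Finset.mem_singleton]
      have h := hx.2
      unfold nv at h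
      ext
      · simp only; omega
      · simp only; omega
    calc ∑ x ∈ F.filter (fun x => nv x = 0), mo p r x ≤ ∑ x ∈ {((0, 0) : Vtx)}, mo p r x :=
          Finset.sum_le_sum_of_subset_of_nonneg hsub (fun x _ _ => mo_nonneg p r x)
      _ = mo p r (0, 0) := Finset.sum_singleton _ _
      _ ≤ 1 * 1 := by
          unfold mo
          apply mul_le_mul _ ((tauf_le_tau _ _ _).trans (tau_le_one _ _ _)) (tauf_nonneg _ _ _)
            zero_le_one
          have : nv ((0, 0) : Vtx) = 0 := by unfold nv; simp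
          rw [this, Nat.cast_zero]
          exact Real.rpow_le_one le_rfl zero_le_one hr
      _ = 1 := by norm_num
  -- the other terms
  have hterm : ∀ n : ℕ, ∑ x ∈ F.filter (fun x => nv x = n + 1), mo p r x ≤
      12 * C * Kb * t^(-(r + 19/24)) * (Real.exp (-(c/2 * t)))^(n + 1) := by
    intro n
    have hn0 : (0:ℝ) < ((n + 1 : ℕ) : ℝ) := by positivity
    have h1 : ∀ x ∈ F.filter (fun x => nv x = n + 1), mo p r x ≤
        C * ((n + 1 : ℕ) : ℝ)^(r - 5/24) * Real.exp (-(c * (((n + 1 : ℕ) : ℝ) * t))) := by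
      intro x hx
      have hx2 := (Finset.mem_filter.mp hx).2
      have h2 := (hT p hp1 hp2 x (by omega)).2
      rw [hx2, ← htt] at h2
      unfold mo
      rw [hx2]
      calc ((n + 1 : ℕ) : ℝ)^r * tauf p (0, 0) x
          ≤ ((n + 1 : ℕ) : ℝ)^r * (C * ((n + 1 : ℕ) : ℝ)^(-(5/24) : ℝ) *
              Real.exp (-(c * (((n + 1 : ℕ) : ℝ) * t)))) :=
            mul_le_mul_of_nonneg_left h2 (Real.rpow_nonneg hn0.le _)
        _ = C * (((n + 1 : ℕ) : ℝ)^r * ((n + 1 : ℕ) : ℝ)^(-(5/24) : ℝ)) *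
              Real.exp (-(c * (((n + 1 : ℕ) : ℝ) * t))) := by ring
        _ = _ := by
            rw [← Real.rpow_add hn0]
            congr 3
    have hcard : ((F.filter (fun x => nv x = n + 1)).card : ℝ) ≤ 12 * ((n + 1 : ℕ) : ℝ) := by
      have h3 : F.filter (fun x => nv x = n + 1) ⊆ sph (n + 1) := by
        intro x hx
        exact mem_sph (Finset.mem_filter.mp hx).2
      have h4 := (Finset.card_le_card h3).trans (card_sph (by omega : 1 ≤ n + 1))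
      exact_mod_cast h4
    have h5 := Finset.sum_le_card_nsmul _ _ _ h1
    rw [nsmul_eq_mul] at h5
    have hval : 0 ≤ C * ((n + 1 : ℕ) : ℝ)^(r - 5/24) *
        Real.exp (-(c * (((n + 1 : ℕ) : ℝ) * t))) := by positivity
    have h6 := hb (((n + 1 : ℕ) : ℝ) * t) (by positivity)
    have h7 : ((n + 1 : ℕ) : ℝ) * ((n + 1 : ℕ) : ℝ)^(r - 5/24) = ((n + 1 : ℕ) : ℝ)^(r + 19/24) := by
      have : ((n + 1 : ℕ) : ℝ) * ((n + 1 : ℕ) : ℝ)^(r - 5/24) =
          ((n + 1 : ℕ) : ℝ)^(1:ℝ) * ((n + 1 : ℕ) : ℝ)^(r - 5/24) := by rw [Real.rpow_one]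
      rw [this, ← Real.rpow_add hn0]
      congr 1
      ring
    have h8 : (((n + 1 : ℕ) : ℝ) * t)^(r + 19/24) * t^(-(r + 19/24)) =
        ((n + 1 : ℕ) : ℝ)^(r + 19/24) := by
      rw [Real.mul_rpow hn0.le ht.le, mul_assoc, ← Real.rpow_add ht]
      rw [add_neg_cancel, Real.rpow_zero, mul_one]
    have h9 : (Real.exp (-(c/2 * t)))^(n + 1) = Real.exp (-(c/2 * (((n + 1 : ℕ) : ℝ) * t))) := by
      rw [← Real.exp_nat_mul]
      congr 1
      ring
    rw [h9]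
    calc _ ≤ ((F.filter (fun x => nv x = n + 1)).card : ℝ) *
          (C * ((n + 1 : ℕ) : ℝ)^(r - 5/24) * Real.exp (-(c * (((n + 1 : ℕ) : ℝ) * t)))) := h5
      _ ≤ (12 * ((n + 1 : ℕ) : ℝ)) *
          (C * ((n + 1 : ℕ) : ℝ)^(r - 5/24) * Real.exp (-(c * (((n + 1 : ℕ) : ℝ) * t)))) :=
          mul_le_mul_of_nonneg_right hcard hval
      _ = 12 * C * ((((n + 1 : ℕ) : ℝ) * ((n + 1 : ℕ) : ℝ)^(r - 5/24)) *
          Real.exp (-(c * (((n + 1 : ℕ) : ℝ) * t)))) := by ring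
      _ = 12 * C * t^(-(r + 19/24)) * ((((n + 1 : ℕ) : ℝ) * t)^(r + 19/24) *
          Real.exp (-(c * (((n + 1 : ℕ) : ℝ) * t)))) := by
          rw [h7, ← h8]; ring
      _ ≤ 12 * C * t^(-(r + 19/24)) * (Kb * Real.exp (-(c/2 * (((n + 1 : ℕ) : ℝ) * t)))) :=
          mul_le_mul_of_nonneg_left h6 (by positivity)
      _ = _ := by ring
  have hq0 : 0 < Real.exp (-(c/2 * t)) := Real.exp_pos _
  have hq1 : Real.exp (-(c/2 * t)) < 1 := by
    rw [Real.exp_lt_one_iff]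
    have : 0 < c/2 * t := by positivity
    linarith
  have hgeo : ∑ n ∈ range N, (Real.exp (-(c/2 * t)))^(n + 1) ≤ (1 + c/2) * (2/c) * t⁻¹ := by
    obtain ⟨q, hq⟩ : ∃ q : ℝ, q = Real.exp (-(c/2 * t)) := ⟨_, rfl⟩
    rw [← hq] at hq0 hq1 ⊢
    have h1 : ∑ n ∈ range N, q^(n + 1) ≤ 1 / (1 - q) := by
      have h2 : ∑ n ∈ range N, q^(n + 1) ≤ ∑ n ∈ range N, q^n := by
        apply Finset.sum_le_sum
        intro n _
        exact pow_le_pow_of_le_one hq0.le hq1.le (Nat.le_succ n)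
      have h3 : ∑ n ∈ range N, q^n ≤ 1 / (1 - q) := by
        rw [geom_sum_eq hq1.ne, le_div_iff₀ (by linarith)]
        have e : (q^N - 1) / (q - 1) * (1 - q) = 1 - q^N := by
          have : q - 1 ≠ 0 := by linarith
          field_simp
          ring
        rw [e]
        have : 0 ≤ q^N := by positivity
        linarith
      exact h2.trans h3
    refine h1.trans ?_
    rw [div_le_iff₀ (by linarith)]
    have h4 : Real.exp (-(c/2 * t)) ≤ 1 / (1 + c/2 * t) := by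
      rw [Real.exp_neg, ← one_div]
      apply one_div_le_one_div_of_le (by positivity)
      have := Real.add_one_le_exp (c/2 * t)
      linarith
    rw [← hq] at h4
    have h5 : 1 - 1 / (1 + c/2 * t) ≤ 1 - q := by linarith
    have h6 : 0 ≤ (1 + c/2) * (2/c) * t⁻¹ := by positivity
    have h7 : 1 ≤ (1 + c/2) * (2/c) * t⁻¹ * (1 - 1 / (1 + c/2 * t)) := by
      have e : (1 + c/2) * (2/c) * t⁻¹ * (1 - 1 / (1 + c/2 * t)) = (1 + c/2) / (1 + c/2 * t) := by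
        field_simp
        ring
      rw [e, le_div_iff₀ (by positivity)]
      have : c/2 * t ≤ c/2 * 1 := mul_le_mul_of_nonneg_left ht1 (by positivity)
      linarith
    exact h7.trans (mul_le_mul_of_nonneg_left h5 h6)
  have hsum : ∑ n ∈ range N, ∑ x ∈ F.filter (fun x => nv x = n + 1), mo p r x ≤
      12 * C * Kb * t^(-(r + 19/24)) * ((1 + c/2) * (2/c) * t⁻¹) := by
    calc _ ≤ ∑ n ∈ range N, 12 * C * Kb * t^(-(r + 19/24)) * (Real.exp (-(c/2 * t)))^(n + 1) :=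
          Finset.sum_le_sum (fun n _ => hterm n)
      _ = 12 * C * Kb * t^(-(r + 19/24)) * ∑ n ∈ range N, (Real.exp (-(c/2 * t)))^(n + 1) := by
          rw [Finset.mul_sum]
      _ ≤ _ := mul_le_mul_of_nonneg_left hgeo (by positivity)
  have hpow : t^(-(r + 19/24)) * t⁻¹ = t^(-(r + 43/24)) := by
    rw [← Real.rpow_neg_one, ← Real.rpow_add ht]
    congr 1
    ring
  have hone : 1 ≤ t^(-(r + 43/24)) :=
    Real.one_le_rpow_of_pos_of_le_one_of_nonpos ht ht1 (by linarith)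
  calc _ ≤ 12 * C * Kb * t^(-(r + 19/24)) * ((1 + c/2) * (2/c) * t⁻¹) + 1 := add_le_add hsum h0
    _ = 12 * C * Kb * ((1 + c/2) * (2/c)) * (t^(-(r + 19/24)) * t⁻¹) + 1 := by ring
    _ ≤ 12 * C * Kb * ((1 + c/2) * (2/c)) * t^(-(r + 43/24)) + t^(-(r + 43/24)) := by
        rw [hpow]; linarith
    _ = _ := by ring

theorem mo_lower {c C : ℝ} (hc : 0 < c) (hC : 0 < C) (hT : TM c C) {r : ℝ} (hr : 0 ≤ r) :
    ∃ K : ℝ, 0 < K ∧ ∀ p : unitInterval, 1/4 ≤ (p:ℝ) → (p:ℝ) ≤ 3/4 → 0 < tt p →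
      ∃ F : Finset Vtx, K * (tt p)^(-(r + 43/24)) ≤ ∑ x ∈ F, mo p r x := by
  refine ⟨c * (2:ℝ)^(-(5/24) : ℝ) * Real.exp (-(C * 4)), by positivity, ?_⟩
  intro p hp1 hp2 ht
  have ht1 := tt_le_one p.2.1 p.2.2
  obtain ⟨t, htt⟩ : ∃ t : ℝ, t = tt p := ⟨_, rfl⟩
  rw [← htt] at ht ht1 ⊢
  obtain ⟨n, hn⟩ : ∃ n : ℕ, n = ⌈1/t⌉₊ := ⟨_, rfl⟩
  have h1t : 1 ≤ 1/t := by rw [le_div_iff₀ ht]; linarith
  have hn1 : 1/t ≤ n := by rw [hn]; exact Nat.le_ceil _
  have hn2 : (n:ℝ) ≤ 2 * (1/t) := by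
    have := Nat.ceil_lt_add_one (a := 1/t) (by positivity)
    rw [hn]
    linarith
  have hn0 : (0:ℝ) < n := by linarith
  have hnt : (n:ℝ) * t ≤ 2 := by
    calc (n:ℝ) * t ≤ 2 * (1/t) * t := mul_le_mul_of_nonneg_right hn2 ht.le
      _ = 2 := by field_simp
  refine ⟨Icc (n:ℤ) (2 * n) ×ˢ Icc (0:ℤ) n, ?_⟩
  have hterm : ∀ x ∈ Icc (n:ℤ) (2 * n) ×ˢ Icc (0:ℤ) n,
      c * (2:ℝ)^(-(5/24) : ℝ) * Real.exp (-(C * 4)) * (n:ℝ)^(r - 5/24) ≤ mo p r x := by
    intro x hx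
    rw [Finset.mem_product, Finset.mem_Icc, Finset.mem_Icc] at hx
    obtain ⟨⟨g1, g2⟩, g3, g4⟩ := hx
    have hv1 : n ≤ nv x := by unfold nv; omega
    have hv2 : nv x ≤ 2 * n := by unfold nv; omega
    have hnpos : 1 ≤ n := by
      have : 0 < n := by exact_mod_cast hn0
      omega
    have h := (hT p hp1 hp2 x (by omega)).1
    rw [← htt] at h
    have hv1r : (n:ℝ) ≤ nv x := by exact_mod_cast hv1
    have hv2r : (nv x : ℝ) ≤ 2 * n := by exact_mod_cast hv2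
    have hvx0 : (0:ℝ) < nv x := by linarith
    have k1 : (n:ℝ)^r ≤ (nv x : ℝ)^r := Real.rpow_le_rpow hn0.le hv1r hr
    have k2 : (2:ℝ)^(-(5/24) : ℝ) * (n:ℝ)^(-(5/24) : ℝ) ≤ (nv x : ℝ)^(-(5/24) : ℝ) := by
      rw [← Real.mul_rpow (by norm_num) hn0.le]
      exact Real.rpow_le_rpow_of_nonpos hvx0 hv2r (by norm_num)
    have k3 : Real.exp (-(C * 4)) ≤ Real.exp (-(C * (nv x * t))) := by
      apply Real.exp_le_exp.mpr
      have : (nv x : ℝ) * t ≤ 4 := by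
        calc (nv x : ℝ) * t ≤ (2 * n) * t := mul_le_mul_of_nonneg_right hv2r ht.le
          _ = 2 * (n * t) := by ring
          _ ≤ 4 := by linarith
      have := mul_le_mul_of_nonneg_left this hC.le
      linarith
    have k4 : c * ((2:ℝ)^(-(5/24) : ℝ) * (n:ℝ)^(-(5/24) : ℝ)) * Real.exp (-(C * 4)) ≤
        tauf p (0, 0) x := by
      refine le_trans ?_ h
      apply mul_le_mul _ k3 (Real.exp_pos _).le (by positivity)
      exact mul_le_mul_of_nonneg_left k2 hc.le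
    unfold mo
    have e : (n:ℝ)^(r - 5/24) = (n:ℝ)^r * (n:ℝ)^(-(5/24) : ℝ) := by
      rw [← Real.rpow_add hn0]
      congr 1
    rw [e]
    calc c * (2:ℝ)^(-(5/24) : ℝ) * Real.exp (-(C * 4)) * ((n:ℝ)^r * (n:ℝ)^(-(5/24) : ℝ))
        = (n:ℝ)^r * (c * ((2:ℝ)^(-(5/24) : ℝ) * (n:ℝ)^(-(5/24) : ℝ)) * Real.exp (-(C * 4))) := by
          ring
      _ ≤ _ := mul_le_mul k1 k4 (by positivity) (by positivity)
  have hcard := Finset.card_nsmul_le_sum _ _ _ hterm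
  rw [nsmul_eq_mul, Finset.card_product, Int.card_Icc, Int.card_Icc] at hcard
  have hc1 : (n:ℝ) * n ≤ (((2 * (n:ℤ) + 1 - n).toNat * ((n:ℤ) + 1 - 0).toNat : ℕ) : ℝ) := by
    have e1 : (2 * (n:ℤ) + 1 - n).toNat = n + 1 := by omega
    have e2 : ((n:ℤ) + 1 - 0).toNat = n + 1 := by omega
    rw [e1, e2]
    push_cast
    nlinarith
  have hval : 0 ≤ c * (2:ℝ)^(-(5/24) : ℝ) * Real.exp (-(C * 4)) * (n:ℝ)^(r - 5/24) := by positivity
  refine le_trans ?_ ((mul_le_mul_of_nonneg_right hc1 hval).trans hcard)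
  have e3 : (n:ℝ) * n * (n:ℝ)^(r - 5/24) = (n:ℝ)^(r + 43/24) := by
    have : (n:ℝ) * n = (n:ℝ)^(2:ℝ) := by rw [Real.rpow_two]; ring
    rw [this, ← Real.rpow_add hn0]
    congr 1
    ring
  have e4 : t^(-(r + 43/24)) ≤ (n:ℝ)^(r + 43/24) := by
    have : t^(-(r + 43/24)) = (1/t)^(r + 43/24) := by
      rw [one_div, Real.inv_rpow ht.le, Real.rpow_neg ht.le]
    rw [this]
    exact Real.rpow_le_rpow (by positivity) hn1 (by linarith)
  calc c * (2:ℝ)^(-(5/24) : ℝ) * Real.exp (-(C * 4)) * t^(-(r + 43/24))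
      ≤ c * (2:ℝ)^(-(5/24) : ℝ) * Real.exp (-(C * 4)) * (n:ℝ)^(r + 43/24) :=
        mul_le_mul_of_nonneg_left e4 (by positivity)
    _ = _ := by rw [← e3]; ring

/-- **Moments.** -/
theorem mo_main {c C : ℝ} (hc : 0 < c) (hC : 0 < C) (hT : TM c C) {r : ℝ} (hr : 0 ≤ r) :
    ∃ K1 K2 : ℝ, 0 < K1 ∧ 0 < K2 ∧ ∀ p : unitInterval, 1/4 ≤ (p:ℝ) → (p:ℝ) ≤ 3/4 → 0 < tt p →
      Summable (mo p r) ∧ K1 * (tt p)^(-(r + 43/24)) ≤ ∑' x, mo p r x ∧
        ∑' x, mo p r x ≤ K2 * (tt p)^(-(r + 43/24)) := by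
  obtain ⟨K1, hK1, h1⟩ := mo_lower hc hC hT hr
  obtain ⟨K2, hK2, h2⟩ := mo_upper hc hC hT hr
  refine ⟨K1, K2, hK1, hK2, fun p hp1 hp2 ht => ?_⟩
  have hs : Summable (mo p r) :=
    summable_of_sum_le (fun x => mo_nonneg p r x) (h2 p hp1 hp2 ht)
  refine ⟨hs, ?_, ?_⟩
  · obtain ⟨F, hF⟩ := h1 p hp1 hp2 ht
    exact hF.trans (hs.sum_le_tsum F (fun x _ => mo_nonneg p r x))
  · exact hs.tsum_le_of_sum_le (h2 p hp1 hp2 ht)

end Pool.Agent.D0H24.NC2
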