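import Pool.Agent.D0H24.NC2.Trunc

/-!
From the near-critical bounds for one arm and for crossings of rectangles to the near-critical
two-point function.
-/

set_option autoImplicit false
set_option maxHeartbeats 1000000

namespace Pool.Agent.D0H24.NC2

open H974 Finset MeasureTheory

/-- the inverse correlation length up to constants -/
noncomputable def tt (p : ℝ) : ℝ := |p - 1/2|^(4/3 : ℝ)

theorem tt_nonneg (p : ℝ) : 0 ≤ tt p := Real.rpow_nonneg (abs_nonneg _) _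

theorem tt_le_one {p : ℝ} (h0 : 0 ≤ p) (h1 : p ≤ 1) : tt p ≤ 1 := by
  unfold tt
  apply Real.rpow_le_one (abs_nonneg _) _ (by norm_num)
  rw [abs_le]
  constructor <;> linarith

def InL1 : Prop := ∃ c C : ℝ, 0 < c ∧ 0 < C ∧ ∀ p : ℝ, 1/4 ≤ p → p ≤ 3/4 → ∀ n : ℕ, 1 ≤ n →
  c * (n:ℝ)^(-(5/48) : ℝ) * Real.exp (-(C * (n * tt p))) ≤ arm p n

def InL2 : Prop := ∃ c C : ℝ, 0 < c ∧ 0 < C ∧ ∀ p : ℝ, 1/4 ≤ p → p ≤ 3/4 → ∀ w h : ℕ, 1 ≤ w →
  1 ≤ h → w ≤ 16 * h → h ≤ 16 * w → c * Real.exp (-(C * (w * tt p))) ≤ hh p w h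

def InL3 : Prop := ∃ c C : ℝ, 0 < c ∧ 0 < C ∧ ∀ p : ℝ, 1/4 ≤ p → p ≤ 3/4 → ∀ w h : ℕ, 1 ≤ w →
  1 ≤ h → w ≤ 16 * h → h ≤ 16 * w → c * Real.exp (-(C * (w * tt p))) ≤ 1 - hh p w h

def InU1 : Prop := ∃ C : ℝ, 0 < C ∧ ∀ p : ℝ, 1/4 ≤ p → p ≤ 3/4 → ∀ n : ℕ, 1 ≤ n →
  arm p n ≤ C * (n:ℝ)^(-(5/48) : ℝ) * (1 + (n * tt p)^(5/48 : ℝ))

def InU1' : Prop := ∃ c C : ℝ, 0 < c ∧ 0 < C ∧ ∀ p : ℝ, 1/4 ≤ p → p ≤ 1/2 → ∀ n : ℕ, 1 ≤ n →
  arm p n ≤ C * (n:ℝ)^(-(5/48) : ℝ) * Real.exp (-(c * (n * tt p)))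

def InU2 : Prop := ∃ c C : ℝ, 0 < c ∧ 0 < C ∧ ∀ p : ℝ, 1/2 ≤ p → p ≤ 3/4 → ∀ w h : ℕ, 1 ≤ w →
  1 ≤ h → w ≤ 16 * h → h ≤ 16 * w → 1 - hh p w h ≤ C * Real.exp (-(c * (w * tt p)))

/-- Lower bound. -/
theorem low0 (h1 : InL1) (h2 : InL2) (h3 : InL3) : ∃ c C : ℝ, 0 < c ∧ 0 < C ∧
    ∀ p : unitInterval, 1/4 ≤ (p:ℝ) → (p:ℝ) ≤ 3/4 → ∀ n : ℕ, 1 ≤ n → ∀ v : Vtx,
      inR (-n) n (-n) n v →
      c * (n:ℝ)^(-(5/24) : ℝ) * Real.exp (-(C * (n * tt p))) ≤ tauf p (0, 0) v := by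
  obtain ⟨c1, C1, hc1, hC1, a1⟩ := h1
  obtain ⟨c2, C2, hc2, hC2, a2⟩ := h2
  obtain ⟨c3, C3, hc3, hC3, a3⟩ := h3
  refine ⟨(c1 * (5:ℝ)^(-(5/48) : ℝ))^2 * c2^4 * c3^4, 10 * C1 + 32 * C2 + 24 * C3, by positivity,
    by positivity, ?_⟩
  intro p hp1 hp2 n hn v hv
  refine le_trans ?_ (tauf_low p hn hv)
  have hn0 : (0:ℝ) < n := by exact_mod_cast hn
  obtain ⟨y, hy⟩ : ∃ y : ℝ, y = n * tt p := ⟨_, rfl⟩
  have b1 := a1 p hp1 hp2 (5 * n) (by omega)
  have b2 := a2 p hp1 hp2 (8 * n) (2 * n) (by omega) (by omega) (by omega) (by omega)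
  have b3 := a3 p hp1 hp2 (6 * n) (24 * n) (by omega) (by omega) (by omega) (by omega)
  have e1 : (((5 * n : ℕ) : ℝ) * tt p) = 5 * y := by rw [hy]; push_cast; ring
  have e2 : (((8 * n : ℕ) : ℝ) * tt p) = 8 * y := by rw [hy]; push_cast; ring
  have e3 : (((6 * n : ℕ) : ℝ) * tt p) = 6 * y := by rw [hy]; push_cast; ring
  rw [e1] at b1
  rw [e2] at b2
  rw [e3] at b3
  have e4 : (((5 * n : ℕ) : ℝ))^(-(5/48) : ℝ) = (5:ℝ)^(-(5/48) : ℝ) * (n:ℝ)^(-(5/48) : ℝ) := by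
    push_cast
    rw [Real.mul_rpow (by norm_num) hn0.le]
  rw [e4] at b1
  have e5 : (((8 * n : ℕ) : ℤ)) = 8 * (n:ℤ) := by push_cast; ring
  have e6 : (((2 * n : ℕ) : ℤ)) = 2 * (n:ℤ) := by push_cast; ring
  have e7 : (((24 * n : ℕ) : ℤ)) = 4 * ((6 * n : ℕ) : ℤ) := by push_cast; ring
  rw [e5, e6] at b2
  rw [e7] at b3
  have k1 := pow_le_pow_left₀ (by positivity) b1 2
  have k2 := pow_le_pow_left₀ (by positivity) b2 4
  have k3 := pow_le_pow_left₀ (by positivity) b3 4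
  have k4 := mul_le_mul k1 k2 (by positivity) (sq_nonneg _)
  have k5 := mul_le_mul k4 k3 (by positivity)
    (mul_nonneg (sq_nonneg _) (pow_nonneg (hh_nonneg p.2.1 p.2.2 _ _) 4))
  refine le_trans (le_of_eq ?_) k5
  rw [← hy]
  have f1 : (n:ℝ)^(-(5/24) : ℝ) = ((n:ℝ)^(-(5/48) : ℝ))^2 := by
    rw [← Real.rpow_natCast, ← Real.rpow_mul hn0.le]
    norm_num
  have f2 : Real.exp (-((10 * C1 + 32 * C2 + 24 * C3) * y)) =
      (Real.exp (-(C1 * (5 * y))))^2 * (Real.exp (-(C2 * (8 * y))))^4 *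
        (Real.exp (-(C3 * (6 * y))))^4 := by
    rw [← Real.exp_nat_mul, ← Real.exp_nat_mul, ← Real.exp_nat_mul, ← Real.exp_add,
      ← Real.exp_add]
    congr 1
    push_cast
    ring
  rw [f1, f2]
  ring

theorem exp_lin {c y : ℝ} (hc : 0 < c) (hy : 0 ≤ y) :
    (1 + y^(5/48 : ℝ))^2 ≤ (2 + 4/c)^2 * Real.exp (c * y / 2) := by
  have h1 : y^(5/48 : ℝ) ≤ 1 + y := by
    rcases le_or_gt y 1 with h | h
    · have := Real.rpow_le_one hy h (by norm_num : (0:ℝ) ≤ 5/48)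
      linarith
    · have := Real.rpow_le_rpow_of_exponent_le h.le (by norm_num : (5/48 : ℝ) ≤ 1)
      rw [Real.rpow_one] at this
      linarith
  have h2 : 0 ≤ y^(5/48 : ℝ) := Real.rpow_nonneg hy _
  have h3 : 2 + y ≤ (2 + 4/c) * Real.exp (c * y / 4) := by
    have h4 : c * y / 4 + 1 ≤ Real.exp (c * y / 4) := Real.add_one_le_exp _
    have h5 : 0 ≤ c * y / 4 := by positivity
    have h6 : y = (4/c) * (c * y / 4) := by field_simp
    have h7 : 0 ≤ 4 / c := by positivity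
    calc 2 + y = 2 + (4/c) * (c * y / 4) := by rw [← h6]
      _ ≤ 2 * Real.exp (c * y / 4) + (4/c) * Real.exp (c * y / 4) := by
          apply add_le_add
          · linarith
          · exact mul_le_mul_of_nonneg_left (by linarith) h7
      _ = _ := by ring
  have h8 : Real.exp (c * y / 2) = (Real.exp (c * y / 4))^2 := by
    rw [← Real.exp_nat_mul]
    congr 1
    push_cast
    ring
  rw [h8, ← mul_pow]
  apply pow_le_pow_left₀ (by linarith)
  linarith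

theorem bad_le {c C : ℝ} (hc : 0 < c) (hC : 0 < C) {p : ℝ} (hp0 : 0 ≤ tt p)
    (h : ∀ w h : ℕ, 1 ≤ w → 1 ≤ h → w ≤ 16 * h → h ≤ 16 * w →
      1 - hh p w h ≤ C * Real.exp (-(c * (w * tt p)))) {m : ℕ} (hm : 1 ≤ m) (k : ℕ) :
    bad p m k ≤ (5 * C) * Real.exp (-(c * (m * tt p) * 2^k)) := by
  have hR1 := R1_pos hm k
  have hR3 : R3 m k = 32 * R1 m k ∨ R3 m k = 4 * R1 m k := by
    cases k with
    | zero => left; exact R3_zero m
    | succ k => right; exact R3_succ m k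
  have hRk : m * 2^k ≤ R1 m k := by
    cases k with
    | zero => show m * 2^0 ≤ 2 * m; omega
    | succ k =>
      show m * 2^(k+1) ≤ 32 * m * 2^k
      have : m * 2^(k+1) = 2 * (m * 2^k) := by ring
      have h2 : 32 * m * 2^k = 32 * (m * 2^k) := by ring
      omega
  have i1 := h (4 * R1 m k) (R1 m k) (by omega) hR1 (by omega) (by omega)
  have i2 := h (R3 m k - R1 m k) (2 * R1 m k) (by omega) (by omega) (by omega) (by omega)
  have key : ∀ w : ℕ, m * 2^k ≤ w →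
      C * Real.exp (-(c * (w * tt p))) ≤ C * Real.exp (-(c * (m * tt p) * 2^k)) := by
    intro w hw
    apply mul_le_mul_of_nonneg_left _ hC.le
    apply Real.exp_le_exp.mpr
    have hw' : (m:ℝ) * 2^k ≤ w := by exact_mod_cast hw
    have h3 : ((m:ℝ) * 2^k) * tt p ≤ w * tt p := mul_le_mul_of_nonneg_right hw' hp0
    have h4 : c * (((m:ℝ) * 2^k) * tt p) ≤ c * (w * tt p) := mul_le_mul_of_nonneg_left h3 hc.le
    have h5 : c * (m * tt p) * 2^k = c * (((m:ℝ) * 2^k) * tt p) := by ring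
    linarith
  have k1 := key (4 * R1 m k) (by omega)
  have k2 := key (R3 m k - R1 m k) (by omega)
  unfold bad
  linarith

/-- Upper bound above the critical point. -/
theorem up1 (h1 : InU1) (h2 : InU2) : ∃ c C : ℝ, 0 < c ∧ 0 < C ∧
    ∀ p : unitInterval, 1/2 ≤ (p:ℝ) → (p:ℝ) ≤ 3/4 → ∀ m : ℕ, 1 ≤ m → ∀ v : Vtx,
      0 ≤ v.1 → Out (16 * m) v → inR (-(24 * m)) (24 * m) (-(24 * m)) (24 * m) v →
      tauf p (0, 0) v ≤ C * (m:ℝ)^(-(5/24) : ℝ) * Real.exp (-(c * (m * tt p))) := by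
  obtain ⟨C1, hC1, a1⟩ := h1
  obtain ⟨c2, C2, hc2, hC2, a2⟩ := h2
  refine ⟨c2 / 2, C1^2 * (2 + 4/c2)^2 * (10 * C2 + 3), by positivity, by positivity, ?_⟩
  intro p hp1 hp2 m hm v hv0 hv1 hv2
  have hm0 : (0:ℝ) < m := by exact_mod_cast hm
  have ht0 := tt_nonneg (p:ℝ)
  obtain ⟨y, hy⟩ : ∃ y : ℝ, y = m * tt p := ⟨_, rfl⟩
  have hy0 : 0 ≤ y := by rw [hy]; positivity
  have b1 := a1 p (by linarith) hp2 m hm
  rw [← hy] at b1 ⊢
  have harm0 : 0 ≤ arm p m := arm_nonneg p.2.1 p.2.2 _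
  have b2 : (arm p m)^2 ≤ C1^2 * (m:ℝ)^(-(5/24) : ℝ) * ((2 + 4/c2)^2 * Real.exp (c2 * y / 2)) := by
    have h3 := pow_le_pow_left₀ harm0 b1 2
    have f1 : (m:ℝ)^(-(5/24) : ℝ) = ((m:ℝ)^(-(5/48) : ℝ))^2 := by
      rw [← Real.rpow_natCast, ← Real.rpow_mul hm0.le]
      norm_num
    rw [f1]
    calc (arm p m)^2 ≤ (C1 * (m:ℝ)^(-(5/48) : ℝ) * (1 + y^(5/48 : ℝ)))^2 := h3
      _ = C1^2 * ((m:ℝ)^(-(5/48) : ℝ))^2 * (1 + y^(5/48 : ℝ))^2 := by ring
      _ ≤ _ := mul_le_mul_of_nonneg_left (exp_lin hc2 hy0) (by positivity)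
  -- the factor of the finite cluster
  have b3 : tauf p (0, 0) v ≤ (arm p m)^2 * ((10 * C2 + 3) * Real.exp (-(c2 * y))) := by
    have hout : Out (2 * m + 1) v := by unfold Out at hv1 ⊢; omega
    have htriv : tauf p (0, 0) v ≤ (arm p m)^2 := (tauf_le_tau _ _ _).trans (tau_up p hout)
    rcases le_or_gt (c2 * y) 1 with hle | hgt
    · refine htriv.trans ?_
      have h4 : (1/3 : ℝ) ≤ Real.exp (-(c2 * y)) := by
        have h5 : Real.exp (-1) ≤ Real.exp (-(c2 * y)) := Real.exp_le_exp.mpr (by linarith)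
        have h6 : (1/3 : ℝ) ≤ Real.exp (-1) := by
          rw [Real.exp_neg, one_div]
          apply inv_anti₀ (Real.exp_pos _)
          have := Real.exp_one_lt_d9
          linarith
        linarith
      have h7 : 1 ≤ (10 * C2 + 3) * Real.exp (-(c2 * y)) := by
        calc (1:ℝ) = 3 * (1/3) := by norm_num
          _ ≤ (10 * C2 + 3) * Real.exp (-(c2 * y)) :=
            mul_le_mul (by linarith) h4 (by norm_num) (by positivity)
      calc (arm p m)^2 = (arm p m)^2 * 1 := (mul_one _).symm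
        _ ≤ _ := mul_le_mul_of_nonneg_left h7 (sq_nonneg _)
    · have hbad := fun k => bad_le hc2 hC2 ht0 (a2 p hp1 hp2) hm k
      rw [← hy] at hbad
      have h4 := tauf_up p hm hv0 hv1 hv2 (D := 5 * C2) (a := c2 * y) (by positivity)
        (by linarith) hbad
      refine h4.trans ?_
      apply mul_le_mul_of_nonneg_left _ (sq_nonneg _)
      have h5 : Real.exp (-(c2 * y)) ≤ 1/2 := by
        have h6 : Real.exp (-(c2 * y)) ≤ Real.exp (-1) := Real.exp_le_exp.mpr (by linarith)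
        have h7 : Real.exp (-1) ≤ 1/2 := by
          rw [Real.exp_neg, one_div]
          apply inv_anti₀ (by norm_num)
          have := Real.add_one_le_exp (1:ℝ)
          linarith
        linarith
      have h8 : 0 < Real.exp (-(c2 * y)) := Real.exp_pos _
      rw [div_le_iff₀ (by linarith)]
      have h9 : 0 < (10 * C2 + 3) * Real.exp (-(c2 * y)) := by positivity
      have h10 : (10 * C2 + 3) * Real.exp (-(c2 * y)) * (1/2) ≤
          (10 * C2 + 3) * Real.exp (-(c2 * y)) * (1 - Real.exp (-(c2 * y))) :=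
        mul_le_mul_of_nonneg_left (by linarith) h9.le
      nlinarith
  have h11 : 0 ≤ (10 * C2 + 3) * Real.exp (-(c2 * y)) := by positivity
  refine b3.trans ((mul_le_mul_of_nonneg_right b2 h11).trans (le_of_eq ?_))
  have f2 : Real.exp (-(c2 / 2 * y)) = Real.exp (c2 * y / 2) * Real.exp (-(c2 * y)) := by
    rw [← Real.exp_add]
    congr 1
    ring
  rw [f2]
  ring

/-- the sup norm -/
def nv (v : Vtx) : ℕ := max v.1.natAbs v.2.natAbs

theorem tauf_flip (p : unitInterval) (v : Vtx) : tauf p (0, 0) v = tauf p (0, 0) (-v) := by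
  rw [tauf_comm p (0, 0) v, tauf_zero p v (0, 0)]
  have : ((0, 0) : Vtx) - v = -v := by
    show (0 : ℤ × ℤ) - v = -v
    rw [zero_sub]
  rw [this]
  rfl

/-- Upper bound on both sides of the critical point. -/
theorem up2 (h1 : InU1) (h1' : InU1') (h2 : InU2) : ∃ c C : ℝ, 0 < c ∧ 0 < C ∧
    ∀ p : unitInterval, 1/4 ≤ (p:ℝ) → (p:ℝ) ≤ 3/4 → ∀ v : Vtx, 1 ≤ nv v →
      tauf p (0, 0) v ≤ C * (nv v:ℝ)^(-(5/24) : ℝ) * Real.exp (-(c * (nv v * tt p))) := by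
  obtain ⟨c1, C1, hc1, hC1, a1⟩ := h1'
  obtain ⟨c2, C2, hc2, hC2, a2⟩ := up1 h1 h2
  refine ⟨min c1 c2 / 24, 24 * (C1^2 + C2) + 32 * Real.exp (32 * (min c1 c2 / 24)),
    by have := lt_min hc1 hc2; positivity, by positivity, ?_⟩
  intro p hp1 hp2 v hv
  obtain ⟨c, hc⟩ : ∃ c : ℝ, c = min c1 c2 / 24 := ⟨_, rfl⟩
  obtain ⟨n, hn⟩ : ∃ n : ℕ, n = nv v := ⟨_, rfl⟩
  rw [← hc, ← hn]
  rw [← hn] at hv
  have hc0 : 0 < c := by rw [hc]; have := lt_min hc1 hc2; positivity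
  have hcc1 : 24 * c ≤ c1 := by rw [hc]; have := min_le_left c1 c2; linarith
  have hcc2 : 24 * c ≤ c2 := by rw [hc]; have := min_le_right c1 c2; linarith
  have hn0 : (0:ℝ) < n := by exact_mod_cast hv
  have hn1 : (1:ℝ) ≤ n := by exact_mod_cast hv
  have ht0 := tt_nonneg (p:ℝ)
  have ht1 := tt_le_one p.2.1 p.2.2
  obtain ⟨y, hy⟩ : ∃ y : ℝ, y = n * tt p := ⟨_, rfl⟩
  rw [← hy]
  have hy0 : 0 ≤ y := by rw [hy]; positivity
  have hnp : 0 < (n:ℝ)^(-(5/24) : ℝ) := Real.rpow_pos_of_pos hn0 _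
  rcases lt_or_ge n 32 with hlt | hge
  · have hn32 : (n:ℝ) ≤ 32 := by exact_mod_cast hlt.le
    have hy32 : y ≤ 32 := by
      rw [hy]
      calc (n:ℝ) * tt p ≤ 32 * 1 := mul_le_mul hn32 ht1 ht0 (by norm_num)
        _ = 32 := by norm_num
    have k1 : tauf p (0, 0) v ≤ 1 := (tauf_le_tau _ _ _).trans (tau_le_one _ _ _)
    have k2 : (1/32 : ℝ) ≤ (n:ℝ)^(-(5/24) : ℝ) := by
      calc (1/32 : ℝ) ≤ 1 / n := one_div_le_one_div_of_le hn0 hn32
        _ = (n:ℝ)^(-1 : ℝ) := by rw [Real.rpow_neg_one, one_div]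
        _ ≤ _ := Real.rpow_le_rpow_of_exponent_le hn1 (by norm_num)
    have k3 : Real.exp (-(32 * c)) ≤ Real.exp (-(c * y)) := by
      apply Real.exp_le_exp.mpr
      have := mul_le_mul_of_nonneg_left hy32 hc0.le
      linarith
    have k4 : (1:ℝ) = 32 * Real.exp (32 * c) * (1/32) * Real.exp (-(32 * c)) := by
      have : Real.exp (32 * c) * Real.exp (-(32 * c)) = 1 := by
        rw [← Real.exp_add]; simp
      linear_combination -this
    have hE : 0 < Real.exp (32 * c) := Real.exp_pos _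
    calc tauf p (0, 0) v ≤ 1 := k1
      _ = 32 * Real.exp (32 * c) * (1/32) * Real.exp (-(32 * c)) := k4
      _ ≤ (24 * (C1^2 + C2) + 32 * Real.exp (32 * c)) * (n:ℝ)^(-(5/24) : ℝ) *
          Real.exp (-(c * y)) := by
          apply mul_le_mul _ k3 (Real.exp_pos _).le (by positivity)
          apply mul_le_mul _ k2 (by norm_num) (by positivity)
          have : 0 ≤ 24 * (C1^2 + C2) := by positivity
          linarith
  · obtain ⟨m, hm⟩ : ∃ m : ℕ, m = n / 16 := ⟨_, rfl⟩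
    have hm2 : 2 ≤ m := by rw [hm]; omega
    have hmn : 16 * m ≤ n := by rw [hm]; omega
    have hnm : n ≤ 24 * m := by rw [hm]; omega
    have hm0 : (0:ℝ) < m := by
      have : 0 < m := by omega
      exact_mod_cast this
    have hnmr : (n:ℝ) ≤ 24 * m := by exact_mod_cast hnm
    have hmp : (m:ℝ)^(-(5/24) : ℝ) ≤ 24 * (n:ℝ)^(-(5/24) : ℝ) := by
      have k1 : (m:ℝ)^(-(5/24) : ℝ) ≤ ((n:ℝ)/24)^(-(5/24) : ℝ) := by
        apply Real.rpow_le_rpow_of_nonpos (by positivity) _ (by norm_num)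
        rw [div_le_iff₀ (by norm_num)]
        linarith
      have k2 : ((n:ℝ)/24)^(-(5/24) : ℝ) = (24:ℝ)^(5/24 : ℝ) * (n:ℝ)^(-(5/24) : ℝ) := by
        rw [Real.div_rpow hn0.le (by norm_num), Real.rpow_neg (by norm_num : (0:ℝ) ≤ 24)]
        field_simp
      have k3 : (24:ℝ)^(5/24 : ℝ) ≤ 24 := by
        calc (24:ℝ)^(5/24 : ℝ) ≤ (24:ℝ)^(1:ℝ) :=
              Real.rpow_le_rpow_of_exponent_le (by norm_num) (by norm_num)
          _ = 24 := Real.rpow_one _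
      rw [k2] at k1
      exact k1.trans (mul_le_mul_of_nonneg_right k3 hnp.le)
    have hmy : y ≤ 24 * (m * tt p) := by
      rw [hy]
      calc (n:ℝ) * tt p ≤ (24 * m) * tt p := mul_le_mul_of_nonneg_right hnmr ht0
        _ = 24 * (m * tt p) := by ring
    have hmt0 : 0 ≤ m * tt p := by positivity
    have hexp : ∀ c' : ℝ, 24 * c ≤ c' → Real.exp (-(c' * (m * tt p))) ≤ Real.exp (-(c * y)) := by
      intro c' hc'
      apply Real.exp_le_exp.mpr
      have k1 : c * y ≤ c * (24 * (m * tt p)) := mul_le_mul_of_nonneg_left hmy hc0.le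
      have k2 : 24 * c * (m * tt p) ≤ c' * (m * tt p) := mul_le_mul_of_nonneg_right hc' hmt0
      linarith
    have fin : ∀ (K : ℝ) (c' : ℝ), 0 ≤ K → K ≤ C1^2 + C2 → 24 * c ≤ c' →
        tauf p (0, 0) v ≤ K * (m:ℝ)^(-(5/24) : ℝ) * Real.exp (-(c' * (m * tt p))) →
        tauf p (0, 0) v ≤ (24 * (C1^2 + C2) + 32 * Real.exp (32 * c)) * (n:ℝ)^(-(5/24) : ℝ) *
          Real.exp (-(c * y)) := by
      intro K c' hK0 hK hc' h
      refine h.trans ?_
      have hE : 0 < Real.exp (32 * c) := Real.exp_pos _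
      calc K * (m:ℝ)^(-(5/24) : ℝ) * Real.exp (-(c' * (m * tt p)))
          ≤ (C1^2 + C2) * (24 * (n:ℝ)^(-(5/24) : ℝ)) * Real.exp (-(c * y)) := by
            apply mul_le_mul _ (hexp c' hc') (Real.exp_pos _).le (by positivity)
            exact mul_le_mul hK hmp (by positivity) (by positivity)
        _ = (24 * (C1^2 + C2)) * (n:ℝ)^(-(5/24) : ℝ) * Real.exp (-(c * y)) := by ring
        _ ≤ _ := by
            apply mul_le_mul_of_nonneg_right _ (Real.exp_pos _).le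
            apply mul_le_mul_of_nonneg_right _ hnp.le
            linarith
    have hgeo : ∀ u : Vtx, nv u = n → Out (16 * m) u ∧
        inR (-(24 * m)) (24 * m) (-(24 * m)) (24 * m) u := by
      intro u hu
      unfold nv at hu
      unfold Out inR
      constructor
      · omega
      · omega
    rcases le_or_gt (p:ℝ) (1/2) with hle | hgt
    · apply fin (C1^2) c1 (by positivity) (by linarith) hcc1
      obtain ⟨g1, g2⟩ := hgeo v hn.symm
      have hout : Out (2 * m + 1) v := by unfold Out at g1 ⊢; omega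
      have k1 := (tauf_le_tau p (0, 0) v).trans (tau_up p hout)
      have k2 := a1 p hp1 hle m (by omega)
      have k3 := pow_le_pow_left₀ (arm_nonneg p.2.1 p.2.2 m) k2 2
      refine k1.trans (k3.trans ?_)
      have f1 : (m:ℝ)^(-(5/24) : ℝ) = ((m:ℝ)^(-(5/48) : ℝ))^2 := by
        rw [← Real.rpow_natCast, ← Real.rpow_mul hm0.le]
        norm_num
      rw [f1]
      have hE0 : 0 < Real.exp (-(c1 * (m * tt p))) := Real.exp_pos _
      have hE1 : Real.exp (-(c1 * (m * tt p))) ≤ 1 := by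
        rw [Real.exp_le_one_iff]
        have : 0 ≤ c1 * (m * tt p) := by positivity
        linarith
      calc (C1 * (m:ℝ)^(-(5/48) : ℝ) * Real.exp (-(c1 * (m * tt p))))^2
          = (C1^2 * ((m:ℝ)^(-(5/48) : ℝ))^2 * Real.exp (-(c1 * (m * tt p)))) *
              Real.exp (-(c1 * (m * tt p))) := by ring
        _ ≤ (C1^2 * ((m:ℝ)^(-(5/48) : ℝ))^2 * Real.exp (-(c1 * (m * tt p)))) * 1 :=
            mul_le_mul_of_nonneg_left hE1 (by positivity)
        _ = _ := mul_one _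
    · apply fin C2 c2 hC2.le (by have : 0 ≤ C1^2 := sq_nonneg _; linarith) hcc2
      rcases le_or_gt 0 v.1 with hv0 | hv0
      · obtain ⟨g1, g2⟩ := hgeo v hn.symm
        exact a2 p hgt.le hp2 m (by omega) v hv0 g1 g2
      · have hnv : nv (-v) = n := by
          rw [hn]; unfold nv
          simp
        obtain ⟨g1, g2⟩ := hgeo (-v) hnv
        rw [tauf_flip]
        exact a2 p hgt.le hp2 m (by omega) (-v) (by simp only [Prod.fst_neg]; omega) g1 g2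

end Pool.Agent.D0H24.NC2
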