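import Pool.Agent.D0H24.NC2.Num

/-!
Exponential rates of the two-point functions.
-/

set_option autoImplicit false
set_option maxHeartbeats 1000000

namespace Pool.Agent.D0H24.NC2

open H974 Finset MeasureTheory Filter Topology

/-- the bounds for the two-point function of the finite clusters -/
def TM (c C : ℝ) : Prop := ∀ p : unitInterval, 1/4 ≤ (p:ℝ) → (p:ℝ) ≤ 3/4 → ∀ v : Vtx, 1 ≤ nv v →
  c * (nv v:ℝ)^(-(5/24) : ℝ) * Real.exp (-(C * (nv v * tt p))) ≤ tauf p (0, 0) v ∧
  tauf p (0, 0) v ≤ C * (nv v:ℝ)^(-(5/24) : ℝ) * Real.exp (-(c * (nv v * tt p)))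

theorem nv_smul (n : ℕ) (x : Vtx) : nv (n • x) = n * nv x := by
  unfold nv
  rw [Prod.smul_fst, Prod.smul_snd, nsmul_eq_mul, nsmul_eq_mul, Int.natAbs_mul, Int.natAbs_mul,
    Int.natAbs_natCast, Nat.mul_max_mul_left]

theorem nv_pos {x : Vtx} (hx : x ≠ 0) : 1 ≤ nv x := by
  unfold nv
  by_contra hcon
  apply hx
  ext
  · simp only [Prod.fst_zero]; omega
  · simp only [Prod.snd_zero]; omega

theorem tauf_pos {c C : ℝ} (hc : 0 < c) (hT : TM c C) {p : unitInterval} (hp1 : 1/4 ≤ (p:ℝ))
    (hp2 : (p:ℝ) ≤ 3/4) {v : Vtx} (hv : 1 ≤ nv v) : 0 < tauf p (0, 0) v := by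
  refine lt_of_lt_of_le ?_ (hT p hp1 hp2 v hv).1
  have hn0 : (0:ℝ) < nv v := by exact_mod_cast hv
  have := Real.rpow_pos_of_pos hn0 (-(5/24) : ℝ)
  positivity

/-- Bounds for the logarithm. -/
theorem rate_bounds {c C : ℝ} (hc : 0 < c) (hC : 0 < C) (hT : TM c C) {p : unitInterval}
    (hp1 : 1/4 ≤ (p:ℝ)) (hp2 : (p:ℝ) ≤ 3/4) {x : Vtx} (hx : x ≠ 0) {n : ℕ} (hn : 1 ≤ n) :
    c * tt p * nv x - Real.log C / n ≤ -Real.log (tauf p (0, 0) (n • x)) / n ∧
    -Real.log (tauf p (0, 0) (n • x)) / n ≤ C * tt p * nv x +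
      (-Real.log c / n + (5/24) * (Real.log (nv x) / n) + (5/24) * (Real.log n / n)) := by
  have hk := nv_pos hx
  have hn0 : (0:ℝ) < n := by exact_mod_cast hn
  have hk0 : (0:ℝ) < nv x := by exact_mod_cast hk
  have hk1 : (1:ℝ) ≤ nv x := by exact_mod_cast hk
  have hn1 : (1:ℝ) ≤ n := by exact_mod_cast hn
  have hnv : 1 ≤ nv (n • x) := by rw [nv_smul]; nlinarith
  obtain ⟨h1, h2⟩ := hT p hp1 hp2 (n • x) hnv
  have hpos := tauf_pos hc hT hp1 hp2 hnv
  have hnvr : (nv (n • x) : ℝ) = n * nv x := by rw [nv_smul]; push_cast; ring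
  rw [hnvr] at h1 h2
  obtain ⟨τ, hτ⟩ : ∃ τ : ℝ, τ = tauf p (0, 0) (n • x) := ⟨_, rfl⟩
  rw [← hτ] at h1 h2 hpos ⊢
  have hN0 : (0:ℝ) < n * nv x := by positivity
  have hN1 : (1:ℝ) ≤ n * nv x := by nlinarith
  have hpw : 0 < ((n:ℝ) * nv x)^(-(5/24) : ℝ) := Real.rpow_pos_of_pos hN0 _
  constructor
  · have h3 : τ ≤ C * Real.exp (-(c * (n * nv x * tt p))) := by
      refine h2.trans ?_
      apply mul_le_mul_of_nonneg_right _ (Real.exp_pos _).le
      have : ((n:ℝ) * nv x)^(-(5/24) : ℝ) ≤ 1 :=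
        Real.rpow_le_one_of_one_le_of_nonpos hN1 (by norm_num)
      calc C * ((n:ℝ) * nv x)^(-(5/24) : ℝ) ≤ C * 1 := mul_le_mul_of_nonneg_left this hC.le
        _ = C := mul_one C
    have h4 := Real.log_le_log hpos h3
    rw [Real.log_mul hC.ne' (Real.exp_pos _).ne', Real.log_exp] at h4
    rw [sub_le_iff_le_add, ← add_div, le_div_iff₀ hn0]
    have e : c * tt p * nv x * n = c * (n * nv x * tt p) := by ring
    linarith
  · have h4 := Real.log_le_log (by positivity) h1
    rw [Real.log_mul (by positivity) (Real.exp_pos _).ne', Real.log_exp,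
      Real.log_mul hc.ne' hpw.ne', Real.log_rpow hN0, Real.log_mul hn0.ne' hk0.ne'] at h4
    rw [div_le_iff₀ hn0]
    have e : (C * tt p * nv x + (-Real.log c / n + (5/24) * (Real.log (nv x) / n) +
        (5/24) * (Real.log n / n))) * n = C * (n * nv x * tt p) - Real.log c +
        (5/24) * Real.log (nv x) + (5/24) * Real.log n := by
      field_simp
      ring
    rw [e]
    linarith

theorem err1 (a : ℝ) : Tendsto (fun n : ℕ => a / (n:ℝ)) atTop (𝓝 0) :=
  tendsto_const_div_atTop_nhds_zero_nat a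

theorem err2 : Tendsto (fun n : ℕ => Real.log (n:ℝ) / (n:ℝ)) atTop (𝓝 0) := by
  have h := Real.isLittleO_log_id_atTop.tendsto_div_nhds_zero
  exact h.comp tendsto_natCast_atTop_atTop

theorem err (c k : ℝ) : Tendsto (fun n : ℕ => (-Real.log c / (n:ℝ) + (5/24) * (Real.log k / n) +
    (5/24) * (Real.log n / n))) atTop (𝓝 0) := by
  have h1 := err1 (-Real.log c)
  have h2 := (err1 (Real.log k)).const_mul (5/24)
  have h3 := err2.const_mul (5/24)
  have := (h1.add h2).add h3
  simpa using this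

/-- The exponential rate below the critical point. -/
theorem rate_low {c C : ℝ} (hc : 0 < c) (hC : 0 < C) (hT : TM c C) {p : unitInterval}
    (hp1 : 1/4 ≤ (p:ℝ)) (hp2 : (p:ℝ) ≤ 1/2) (x : Vtx) :
    ∃ φ : ℝ, Tendsto (fun n : ℕ => -Real.log (tau p (0, 0) (n • x)) / n) atTop (𝓝 φ) ∧
      c * tt p * nv x ≤ φ ∧ φ ≤ C * tt p * nv x := by
  by_cases hx : x = 0
  · refine ⟨0, ?_, ?_, ?_⟩
    · have : ∀ n : ℕ, -Real.log (tau p (0, 0) (n • x)) / (n:ℝ) = 0 := by
        intro n
        have e : tau p (0, 0) (n • x) = 1 := by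
          rw [hx, smul_zero]
          unfold tau
          have : {ω : sqLattice.edgeSet → Bool | (openGraph ω).Reachable (0, 0) (0 : ℤ × ℤ)} =
              Set.univ := by
            ext ω
            simp only [Set.mem_univ, iff_true]
            exact SimpleGraph.Reachable.refl _
          rw [this, probReal_univ]
        rw [e, Real.log_one]
        simp
      simp only [this]
      exact tendsto_const_nhds
    · rw [hx]; simp [nv]
    · rw [hx]; simp [nv]
  · have hp3 : (p:ℝ) ≤ 3/4 := by linarith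
    have hk := nv_pos hx
    have hpos : ∀ n : ℕ, 0 < tau p (0, 0) (n • x) := by
      intro n
      rcases Nat.eq_zero_or_pos n with h0 | h0
      · rw [h0, zero_smul]
        unfold tau
        have : {ω : sqLattice.edgeSet → Bool | (openGraph ω).Reachable (0, 0) (0 : ℤ × ℤ)} =
            Set.univ := by
          ext ω
          simp only [Set.mem_univ, iff_true]
          exact SimpleGraph.Reachable.refl _
        rw [this, probReal_univ]
        norm_num
      · rw [tau_eq_tauf hp2]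
        apply tauf_pos hc hT hp1 hp3
        rw [nv_smul]
        nlinarith
    have hsub : Subadditive (fun n : ℕ => -Real.log (tau p (0, 0) (n • x))) := by
      intro m n
      have h1 := tau_mul p (0, 0) (m • x) ((m + n) • x)
      have h2 : tau p (m • x) ((m + n) • x) = tau p (0, 0) (n • x) := by
        rw [tau_zero p (m • x) ((m + n) • x), add_smul, add_sub_cancel_left]
        rfl
      rw [h2] at h1
      have h3 := Real.log_le_log (mul_pos (hpos m) (hpos n)) h1
      rw [Real.log_mul (hpos m).ne' (hpos n).ne'] at h3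
      show -Real.log (tau p (0, 0) ((m + n) • x)) ≤
        -Real.log (tau p (0, 0) (m • x)) + -Real.log (tau p (0, 0) (n • x))
      linarith
    have hbdd : BddBelow (Set.range fun n : ℕ => -Real.log (tau p (0, 0) (n • x)) / (n:ℝ)) := by
      refine ⟨0, ?_⟩
      rintro y ⟨n, rfl⟩
      have h1 : Real.log (tau p (0, 0) (n • x)) ≤ 0 :=
        Real.log_nonpos (hpos n).le (tau_le_one _ _ _)
      show 0 ≤ -Real.log (tau p (0, 0) (n • x)) / (n:ℝ)
      apply div_nonneg (by linarith) (Nat.cast_nonneg n)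
    have hlim := hsub.tendsto_lim hbdd
    refine ⟨_, hlim, ?_, ?_⟩
    · have h1 : Tendsto (fun n : ℕ => c * tt p * nv x - Real.log C / n) atTop
          (𝓝 (c * tt p * nv x)) := by
        simpa using (tendsto_const_nhds (x := c * tt p * (nv x : ℝ))).sub (err1 (Real.log C))
      refine le_of_tendsto_of_tendsto h1 hlim ?_
      filter_upwards [eventually_ge_atTop 1] with n hn
      rw [tau_eq_tauf hp2]
      exact (rate_bounds hc hC hT hp1 hp3 hx hn).1
    · have h1 : Tendsto (fun n : ℕ => C * tt p * nv x + (-Real.log c / (n:ℝ) +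
          (5/24) * (Real.log (nv x) / n) + (5/24) * (Real.log n / n))) atTop
          (𝓝 (C * tt p * nv x)) := by
        simpa using (tendsto_const_nhds (x := C * tt p * (nv x : ℝ))).add (err c (nv x))
      refine le_of_tendsto_of_tendsto hlim h1 ?_
      filter_upwards [eventually_ge_atTop 1] with n hn
      rw [tau_eq_tauf hp2]
      exact (rate_bounds hc hC hT hp1 hp3 hx hn).2

/-- The exponential rate of the finite clusters. -/
theorem rate_fin {c C : ℝ} (hc : 0 < c) (hC : 0 < C) (hT : TM c C) {p : unitInterval}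
    (hp1 : 1/4 ≤ (p:ℝ)) (hp2 : (p:ℝ) ≤ 3/4) (hp : 0 < tt p) {x : Vtx} (hx : x ≠ 0) :
    ∀ᶠ n : ℕ in atTop, c/2 * tt p * nv x ≤ -Real.log (tauf p (0, 0) (n • x)) / n ∧
      -Real.log (tauf p (0, 0) (n • x)) / n ≤ 2 * C * tt p * nv x := by
  have hk := nv_pos hx
  have hk0 : (0:ℝ) < nv x := by exact_mod_cast hk
  have e1 := (err1 (Real.log C)).eventually (gt_mem_nhds (show 0 < c/2 * tt p * nv x by positivity))
  have e2 := (err c (nv x)).eventually (gt_mem_nhds (show 0 < C * tt p * nv x by positivity))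
  filter_upwards [e1, e2, eventually_ge_atTop 1] with n h1 h2 hn
  obtain ⟨h3, h4⟩ := rate_bounds hc hC hT hp1 hp2 hx hn
  constructor
  · linarith
  · linarith

end Pool.Agent.D0H24.NC2
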