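import Pool.Agent.D0H24.NC2.Upper

/-!
Upper bound for the two-point function of the finite clusters above the critical point.
-/

set_option autoImplicit false
set_option maxHeartbeats 1000000

namespace Pool.Agent.D0H24.NC2

open H974 Finset MeasureTheory

theorem rect_sub {m : ℕ} {v : Vtx} (hv0 : 0 ≤ v.1) (hv1 : Out (16 * m) v)
    (hv2 : inR (-(24 * m)) (24 * m) (-(24 * m)) (24 * m) v) {r1 r2 r3 : ℤ} (h1 : m < r1)
    (h12 : r1 < r2) (h23 : r2 ≤ r3) (hr : r2 ≤ 4 * m ∨ 25 * m < r1) :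
    LRE (-r2) r2 r1 r2 ⊆ RE (-r3) r3 (-r3) r3 \ (bx (0, 0) m ∪ bx v m) ∧
    LRE (-r2) r2 (-r2) (-r1) ⊆ RE (-r3) r3 (-r3) r3 \ (bx (0, 0) m ∪ bx v m) ∧
    TBE r1 r2 (-r2) r2 ⊆ RE (-r3) r3 (-r3) r3 \ (bx (0, 0) m ∪ bx v m) ∧
    TBE (-r2) (-r1) (-r2) r2 ⊆ RE (-r3) r3 (-r3) r3 \ (bx (0, 0) m ∪ bx v m) ∧
    LRE (-r3) (-r1) (-r1) r1 ⊆ RE (-r3) r3 (-r3) r3 \ (bx (0, 0) m ∪ bx v m) := by
  obtain ⟨a, b⟩ := v
  obtain ⟨k, hk⟩ : ∃ k : ℤ, k = (m:ℤ) := ⟨_, rfl⟩
  have hk0 : 0 ≤ k := by rw [hk]; positivity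
  unfold Out at hv1
  unfold inR at hv2
  unfold bx
  simp only [← hk, zero_sub, zero_add] at hv0 hv1 hv2 h1 hr ⊢
  refine ⟨?_, ?_, ?_, ?_, ?_⟩
  all_goals
    rintro ⟨x, y, _ | _⟩ he
    · simp only [mem_LRE_false, mem_TBE_false, Finset.mem_sdiff, Finset.mem_union,
        mem_RE_false] at he ⊢
      omega
    · simp only [mem_LRE_true, mem_TBE_true, Finset.mem_sdiff, Finset.mem_union,
        mem_RE_true] at he ⊢
      omega

/-- the bound for the failure of the step `k` -/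
noncomputable def bad (q : ℝ) (m k : ℕ) : ℝ :=
  4 * (1 - hh q ((4 * R1 m k : ℕ) : ℤ) ((R1 m k : ℕ) : ℤ)) +
    (1 - hh q ((R3 m k - R1 m k : ℕ) : ℤ) ((2 * R1 m k : ℕ) : ℤ))

theorem step_bound {q : ℝ} (h0 : 0 ≤ q) (h1 : q ≤ 1) {m : ℕ} (hm : 1 ≤ m) {v : Vtx}
    (hv0 : 0 ≤ v.1) (hv1 : Out (16 * m) v)
    (hv2 : inR (-(24 * m)) (24 * m) (-(24 * m)) (24 * m) v) (k : ℕ) :
    Pr (fun _ => q) (boxE (R3 m k)) (fun F => (Aat (0, 0) m F ∧ Aat v m F) ∧ ¬ GG m k F) ≤
      (arm q m)^2 * bad q m k := by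
  have hR1 := R1_pos hm k
  have hR12 := R12 m k
  have hR23 := R23 (m := m) k
  have hm1 : m < R1 m k := by
    cases k with
    | zero => show m < 2 * m; omega
    | succ k =>
      show m < 32 * m * 2^k
      have : 1 ≤ 2^k := Nat.one_le_two_pow
      nlinarith
  have hcase : R2 m k ≤ 4 * m ∨ 25 * m < R1 m k := by
    cases k with
    | zero => left; exact le_rfl
    | succ k =>
      right
      show 25 * m < 32 * m * 2^k
      have : 1 ≤ 2^k := Nat.one_le_two_pow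
      nlinarith
  have hR3 : 64 * m ≤ R3 m k := by
    show 64 * m ≤ 64 * m * 2^k
    exact Nat.le_mul_of_pos_right _ (by positivity)
  obtain ⟨s1, s2, s3, s4, s5⟩ := rect_sub hv0 hv1 hv2 (r1 := R1 m k) (r2 := R2 m k) (r3 := R3 m k)
    (by exact_mod_cast hm1) (by exact_mod_cast (show R1 m k < R2 m k by omega))
    (by exact_mod_cast hR23) (by exact_mod_cast hcase)
  obtain ⟨T, hT⟩ : ∃ T : Finset Edg, T = bx (0, 0) m ∪ bx v m := ⟨_, rfl⟩
  obtain ⟨U, hU⟩ : ∃ U : Finset Edg, U = boxE (R3 m k) := ⟨_, rfl⟩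
  have hU' : RE (-(R3 m k : ℤ)) (R3 m k) (-(R3 m k)) (R3 m k) = U := by rw [hU]; rfl
  rw [← hT, hU'] at s1 s2 s3 s4 s5
  rw [← hU]
  have t1 : bx (0, 0) m ⊆ T := by rw [hT]; exact Finset.subset_union_left
  have t2 : bx v m ⊆ T := by rw [hT]; exact Finset.subset_union_right
  have u1 : bx (0, 0) m ⊆ U := by
    rw [← hU']; unfold bx
    apply RE_subset <;> simp only <;> omega
  have u2 : bx v m ⊆ U := by
    rw [← hU']; unfold bx
    unfold inR at hv2
    apply RE_subset <;> omega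
  have hTU : T ⊆ U := by rw [hT]; exact Finset.union_subset u1 u2
  have hind := Pr_indep (p := fun _ => q) (U := U) (S := T) (T := U \ T) hTU Finset.sdiff_subset
    (Finset.disjoint_sdiff) (A := fun F => Aat (0, 0) m F ∧ Aat v m F)
    (B := fun F => ¬ GG m k F)
    (fun F _ => and_congr (Aat_local t1) (Aat_local t2))
    (fun F _ => not_congr (Gd_local s1 s2 s3 s4 s5))
  rw [hind]
  have ha : Pr (fun _ => q) U (fun F => Aat (0, 0) m F ∧ Aat v m F) = (arm q m)^2 := by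
    apply arms2 _ u1 u2
    unfold Out at hv1 ⊢
    omega
  rw [ha]
  apply mul_le_mul_of_nonneg_left _ (sq_nonneg _)
  have s1' := s1.trans (Finset.sdiff_subset)
  have s2' := s2.trans (Finset.sdiff_subset)
  have s3' := s3.trans (Finset.sdiff_subset)
  have s4' := s4.trans (Finset.sdiff_subset)
  have s5' := s5.trans (Finset.sdiff_subset)
  have h := pr_Gd h0 h1 s1' s2' s3' s4' s5'
  have e1 : 2 * ((R2 m k : ℕ) : ℤ) = ((4 * R1 m k : ℕ) : ℤ) := by rw [hR12]; push_cast; ring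
  have e2 : ((R2 m k : ℕ) : ℤ) - ((R1 m k : ℕ) : ℤ) = ((R1 m k : ℕ) : ℤ) := by
    rw [hR12]; push_cast; ring
  have e3 : ((R3 m k : ℕ) : ℤ) - ((R1 m k : ℕ) : ℤ) = ((R3 m k - R1 m k : ℕ) : ℤ) := by
    have : R1 m k ≤ R3 m k := by omega
    push_cast [this]
    ring
  have e4 : 2 * ((R1 m k : ℕ) : ℤ) = ((2 * R1 m k : ℕ) : ℤ) := by push_cast; ring
  rw [e1, e2, e3, e4] at h
  exact h

theorem tauf_up (p : unitInterval) {m : ℕ} (hm : 1 ≤ m) {v : Vtx}
    (hv0 : 0 ≤ v.1) (hv1 : Out (16 * m) v)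
    (hv2 : inR (-(24 * m)) (24 * m) (-(24 * m)) (24 * m) v) {D a : ℝ} (hD : 0 ≤ D) (ha : 0 < a)
    (hbad : ∀ k : ℕ, bad p m k ≤ D * Real.exp (-(a * 2^k))) :
    tauf p (0, 0) v ≤ (arm p m)^2 * (D * Real.exp (-a) / (1 - Real.exp (-a))) := by
  have h0 := p.2.1
  have h1 := p.2.2
  obtain ⟨E, hE⟩ : ∃ E : ℕ → Set (sqLattice.edgeSet → Bool), E = fun k =>
    {ω | (Aat (0, 0) m (FF (boxE (R3 m k)) ω) ∧ Aat v m (FF (boxE (R3 m k)) ω)) ∧
      ¬ GG m k (FF (boxE (R3 m k)) ω)} := ⟨_, rfl⟩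
  have hsub : {ω | (openGraph ω).Reachable (0, 0) v ∧
      {w | (openGraph ω).Reachable (0, 0) w}.Finite} ⊆ ⋃ k, E k := by
    rintro ω ⟨k1, k2⟩
    have k1' : Reach (opn ω) (0, 0) v := (open_reach ω _ _).mp k1
    by_contra hcon
    rw [Set.mem_iUnion] at hcon
    push Not at hcon
    have hall : ∀ k, GG m k (FF (boxE (R3 m k)) ω) := by
      intro k
      by_contra hk
      apply hcon k
      rw [hE]
      have hR3 : 64 * m ≤ R3 m k := by
        show 64 * m ≤ 64 * m * 2^k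
        exact Nat.le_mul_of_pos_right _ (by positivity)
      have hin : ∀ (u x : Vtx), bx u m ⊆ boxE (R3 m k) → Reach (opn ω) u x →
          (x.1 ≤ u.1 - m ∨ u.1 + m ≤ x.1 ∨ x.2 ≤ u.2 - m ∨ u.2 + m ≤ x.2) →
          Aat u m (FF (boxE (R3 m k)) ω) := by
        intro u x hu hr hx
        obtain ⟨w, l1, l2, l3⟩ := first_exit (a := u.1 - m) (b := u.1 + m) (c := u.2 - m)
          (d := u.2 + m) (by unfold inR; omega) hr hx
        refine ⟨w, l1, l2, l3.mono ?_⟩
        rintro e ⟨h3, h4⟩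
        refine ⟨?_, h4⟩
        rw [FF_coe]
        exact ⟨h3, Finset.mem_coe.mpr (hu (Finset.mem_coe.mp h4))⟩
      refine ⟨⟨hin (0, 0) v ?_ k1' ?_, hin v (0, 0) ?_ k1'.symm ?_⟩, hk⟩
      · unfold bx boxE
        apply RE_subset <;> simp only <;> omega
      · unfold Out at hv1
        simp only
        omega
      · unfold bx boxE
        unfold inR at hv2
        apply RE_subset <;> omega
      · unfold Out at hv1
        simp only
        omega
    refine chain_inf hm hall (v := v) ?_ k1' k2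
    unfold Out at hv1 ⊢
    omega
  have hr0 : 0 < Real.exp (-a) := Real.exp_pos _
  have hr1 : Real.exp (-a) < 1 := by rw [Real.exp_lt_one_iff]; linarith
  have hterm : ∀ k, (bondLaw p) (E k) ≤
      ENNReal.ofReal ((arm p m)^2 * (D * Real.exp (-a)) * (Real.exp (-a))^k) := by
    intro k
    have h2 : (bondLaw p).real (E k) ≤ (arm p m)^2 * bad p m k := by
      have h3 := step_bound h0 h1 hm hv0 hv1 hv2 k
      rw [← law_event] at h3
      rw [hE]
      exact h3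
    have h4 : (arm p m)^2 * bad p m k ≤
        (arm p m)^2 * (D * Real.exp (-a)) * (Real.exp (-a))^k := by
      have h5 : Real.exp (-(a * 2^k)) ≤ Real.exp (-a) * (Real.exp (-a))^k := by
        rw [← Real.exp_nat_mul, ← Real.exp_add]
        apply Real.exp_le_exp.mpr
        have h6 : ((k:ℝ) + 1) ≤ 2^k := by
          have : k + 1 ≤ 2^k := Nat.lt_two_pow_self
          exact_mod_cast this
        nlinarith
      calc (arm p m)^2 * bad p m k ≤ (arm p m)^2 * (D * Real.exp (-(a * 2^k))) :=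
            mul_le_mul_of_nonneg_left (hbad k) (sq_nonneg _)
        _ ≤ (arm p m)^2 * (D * (Real.exp (-a) * (Real.exp (-a))^k)) := by
            apply mul_le_mul_of_nonneg_left _ (sq_nonneg _)
            exact mul_le_mul_of_nonneg_left h5 hD
        _ = _ := by ring
    rw [← ENNReal.ofReal_toReal (measure_ne_top (bondLaw p) (E k))]
    exact ENNReal.ofReal_le_ofReal (h2.trans h4)
  have hA : 0 ≤ (arm p m)^2 * (D * Real.exp (-a)) := by positivity
  have hsum : ∑' k : ℕ, ENNReal.ofReal ((arm p m)^2 * (D * Real.exp (-a)) * (Real.exp (-a))^k) =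
      ENNReal.ofReal ((arm p m)^2 * (D * Real.exp (-a)) * (1 - Real.exp (-a))⁻¹) := by
    rw [← ENNReal.ofReal_tsum_of_nonneg (fun k => by positivity)
      ((summable_geometric_of_lt_one hr0.le hr1).mul_left _), tsum_mul_left,
      tsum_geometric_of_lt_one hr0.le hr1]
  have hfin : (bondLaw p) {ω | (openGraph ω).Reachable (0, 0) v ∧
      {w | (openGraph ω).Reachable (0, 0) w}.Finite} ≤
      ENNReal.ofReal ((arm p m)^2 * (D * Real.exp (-a)) * (1 - Real.exp (-a))⁻¹) := by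
    refine (measure_mono hsub).trans ((measure_iUnion_le E).trans ?_)
    rw [← hsum]
    exact ENNReal.tsum_le_tsum hterm
  have hpos : 0 ≤ (arm p m)^2 * (D * Real.exp (-a)) * (1 - Real.exp (-a))⁻¹ :=
    mul_nonneg hA (inv_nonneg.mpr (by linarith))
  unfold tauf
  rw [measureReal_def]
  refine (ENNReal.toReal_mono ENNReal.ofReal_ne_top hfin).trans ?_
  rw [ENNReal.toReal_ofReal hpos]
  apply le_of_eq
  rw [div_eq_mul_inv]
  ring

end Pool.Agent.D0H24.NC2
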