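import Pool.Agent.D0H24.NC2.Lower

/-!
Upper bounds for the two-point functions: two disjoint arms; and, above the critical point, for
finite clusters, failure of the crossings of rectangles at some scale.
-/

set_option autoImplicit false
set_option maxHeartbeats 1000000

namespace Pool.Agent.D0H24.NC2

open H974 Finset MeasureTheory

theorem Aat_of_reach {v u : Vtx} {r : ℕ} {F : Finset Edg} (h : Reach (↑F : Set Edg) v u)
    (hu : u.1 ≤ v.1 - r ∨ v.1 + r ≤ u.1 ∨ u.2 ≤ v.2 - r ∨ v.2 + r ≤ u.2) : Aat v r F :=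
  first_exit (by unfold inR; omega) h hu

/-- `v` is outside the box of radius `R - 1` -/
def Out (R : ℤ) (v : Vtx) : Prop := v.1 ≤ -R ∨ R ≤ v.1 ∨ v.2 ≤ -R ∨ R ≤ v.2

theorem bx_disj {m : ℕ} {v : Vtx} (hv : Out (2 * m + 1) v) : Disjoint (bx (0, 0) m) (bx v m) := by
  obtain ⟨a, b⟩ := v
  obtain ⟨k, hk⟩ : ∃ k : ℤ, k = (m:ℤ) := ⟨_, rfl⟩
  rw [Finset.disjoint_left]
  unfold Out at hv
  unfold bx
  simp only [← hk, zero_sub, zero_add] at hv ⊢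
  rintro ⟨x, y, _ | _⟩ h1 h2
  · rw [mem_RE_false] at h1 h2
    rcases hv with hv | hv | hv | hv <;> omega
  · rw [mem_RE_true] at h1 h2
    rcases hv with hv | hv | hv | hv <;> omega

theorem arms2 {q : ℝ} {m : ℕ} {v : Vtx} (hv : Out (2 * m + 1) v) {S : Finset Edg}
    (h1 : bx (0, 0) m ⊆ S) (h2 : bx v m ⊆ S) :
    Pr (fun _ => q) S (fun F => Aat (0, 0) m F ∧ Aat v m F) = (arm q m)^2 := by
  have h := Pr_indep (p := fun _ => q) h1 h2 (bx_disj hv) (A := Aat (0, 0) m) (B := Aat v m)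
    (fun F _ => Aat_local (Finset.Subset.refl _)) (fun F _ => Aat_local (Finset.Subset.refl _))
  rw [h, pr_Aat q h1, pr_Aat q h2, sq]

theorem bx_sub (v : Vtx) (m : ℕ) : ∃ M : ℕ, bx v m ⊆ boxE M := by
  refine ⟨v.1.natAbs + v.2.natAbs + m, ?_⟩
  unfold bx boxE
  apply RE_subset <;> simp only [Nat.cast_add] <;> omega

/-- Two disjoint arms. -/
theorem tau_up (p : unitInterval) {m : ℕ} {v : Vtx} (hv : Out (2 * m + 1) v) :
    tau p (0, 0) v ≤ (arm p m)^2 := by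
  apply tau_le
  intro M
  have ok := okq p.2.1 p.2.2
  obtain ⟨M1, hM1⟩ := bx_sub v m
  obtain ⟨N, hN⟩ : ∃ N : ℕ, N = M + M1 + m := ⟨_, rfl⟩
  have hb : bx (0, 0) m = boxE m := by unfold bx boxE; simp
  have s1 : bx (0, 0) m ⊆ boxE N := by rw [hb]; exact boxE_mono (by omega)
  have s2 : bx v m ⊆ boxE N := hM1.trans (boxE_mono (by omega))
  have s3 : boxE M ⊆ boxE N := boxE_mono (by omega)
  rw [← arms2 hv s1 s2]
  refine (Pr_mono_set ok s3 (Cx_incr _ _ _)).trans ?_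
  apply Pr_mono ok
  intro F _ h
  unfold Out at hv
  refine ⟨Aat_of_reach h ?_, Aat_of_reach (Reach.symm h) ?_⟩
  · simp only; omega
  · simp only; omega

/-! ### Chains of circuits and crossings -/

/-- a circuit and a crossing outside it -/
def Gd (r1 r2 r3 : ℤ) (F : Finset Edg) : Prop := Circ r1 r2 F ∧ LRc (-r3) (-r1) (-r1) r1 F

theorem Gd_local {r1 r2 r3 : ℤ} {F S : Finset Edg} (s1 : LRE (-r2) r2 r1 r2 ⊆ S)
    (s2 : LRE (-r2) r2 (-r2) (-r1) ⊆ S) (s3 : TBE r1 r2 (-r2) r2 ⊆ S)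
    (s4 : TBE (-r2) (-r1) (-r2) r2 ⊆ S) (s5 : LRE (-r3) (-r1) (-r1) r1 ⊆ S) :
    Gd r1 r2 r3 F ↔ Gd r1 r2 r3 (F ∩ S) := by
  unfold Gd Circ
  rw [LRc_local (F := F) s1, LRc_local (F := F) s2, TBc_local (F := F) s3, TBc_local (F := F) s4,
    LRc_local (F := F) s5]

theorem Gd_step {r1 r2 r3 : ℤ} (h0 : 0 ≤ r1) (h12 : r1 < r2) (h23 : r2 ≤ r3)
    {ω : sqLattice.edgeSet → Bool} {S : Finset Edg} (hS : RE (-r3) r3 (-r3) r3 ⊆ S)
    (hG : Gd r1 r2 r3 (FF S ω)) {w : Vtx} (hw : Out r2 w) (hr : Reach (opn ω) (0, 0) w) :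
    ∃ w' : Vtx, w'.1 = -r3 ∧ Reach (opn ω) (0, 0) w' := by
  obtain ⟨hC, y, y', hy, hy', hL⟩ := hG
  obtain ⟨z, hz⟩ := circ_meet h0 h12 hC
  have hS2 : RE (-r2) r2 (-r2) r2 ⊆ S :=
    (RE_subset (by omega) (by omega) (by omega) (by omega)).trans hS
  have hin : (↑(FF S ω) : Set Edg) ⊆ opn ω := by rw [FF_coe]; exact Set.inter_subset_left
  have hsub : opn ω ∩ ↑(RE (-r2) r2 (-r2) r2) ⊆ (↑(FF S ω) : Set Edg) ∩ ↑(RE (-r2) r2 (-r2) r2) := by
    rintro e ⟨h1, h2⟩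
    refine ⟨?_, h2⟩
    rw [FF_coe]
    exact ⟨h1, Finset.mem_coe.mpr (hS2 (Finset.mem_coe.mp h2))⟩
  have key : ∀ u x : Vtx, inR (-r1) r1 (-r1) r1 u → Out r2 x → Reach (opn ω) u x →
      Reach (opn ω) u z := by
    intro u x hu hx hux
    unfold Out at hx
    obtain ⟨w1, -, l2, l3⟩ := first_exit (a := -r2) (b := r2) (c := -r2) (d := r2)
      (by unfold inR at hu ⊢; omega) hux hx
    exact (hz u w1 hu l2 (l3.mono hsub)).mono (Set.inter_subset_left.trans hin)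
  have k1 := key (0, 0) w (by unfold inR; simp only; omega) hw hr
  have k2 : Reach (opn ω) (-r3, y) (-r1, y') := hL.mono (Set.inter_subset_left.trans hin)
  have k3 := key (-r1, y') (-r3, y) (by unfold inR; simp only; omega)
    (by unfold Out; simp only; omega) k2.symm
  exact ⟨(-r3, y), rfl, k1.trans (k3.symm.trans k2.symm)⟩

theorem pr_Gd {q : ℝ} (h0 : 0 ≤ q) (h1 : q ≤ 1) {r1 r2 r3 : ℤ} {S : Finset Edg}
    (s1 : LRE (-r2) r2 r1 r2 ⊆ S)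
    (s2 : LRE (-r2) r2 (-r2) (-r1) ⊆ S) (s3 : TBE r1 r2 (-r2) r2 ⊆ S)
    (s4 : TBE (-r2) (-r1) (-r2) r2 ⊆ S) (s5 : LRE (-r3) (-r1) (-r1) r1 ⊆ S) :
    Pr (fun _ => q) S (fun F => ¬ Gd r1 r2 r3 F) ≤
      4 * (1 - hh q (2 * r2) (r2 - r1)) + (1 - hh q (r3 - r1) (2 * r1)) := by
  have ok := okq h0 h1
  have e1 := pr_LRc q s1
  have e2 := pr_LRc q s2
  have e3 := pr_TBc q s3
  have e4 := pr_TBc q s4
  have e5 := pr_LRc q s5
  have d1 : r2 - -r2 = 2 * r2 := by ring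
  have d2 : -r1 - -r2 = r2 - r1 := by ring
  have d3 : -r1 - -r3 = r3 - r1 := by ring
  have d4 : r1 - -r1 = 2 * r1 := by ring
  rw [d1] at e1
  rw [d1, d2] at e2
  rw [d1] at e3
  rw [d1, d2] at e4
  rw [d3, d4] at e5
  have n1 := Pr_not (p := fun _ => q) S (LRc (-r2) r2 r1 r2)
  have n2 := Pr_not (p := fun _ => q) S (LRc (-r2) r2 (-r2) (-r1))
  have n3 := Pr_not (p := fun _ => q) S (TBc r1 r2 (-r2) r2)
  have n4 := Pr_not (p := fun _ => q) S (TBc (-r2) (-r1) (-r2) r2)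
  have n5 := Pr_not (p := fun _ => q) S (LRc (-r3) (-r1) (-r1) r1)
  rw [e1] at n1
  rw [e2] at n2
  rw [e3] at n3
  rw [e4] at n4
  rw [e5] at n5
  have i1 : Pr (fun _ => q) S (fun F => ¬ Gd r1 r2 r3 F) ≤
      Pr (fun _ => q) S (fun F => ((¬ LRc (-r2) r2 r1 r2 F ∨ ¬ LRc (-r2) r2 (-r2) (-r1) F) ∨
        (¬ TBc r1 r2 (-r2) r2 F ∨ ¬ TBc (-r2) (-r1) (-r2) r2 F)) ∨
          ¬ LRc (-r3) (-r1) (-r1) r1 F) := by
    apply Pr_mono ok
    intro F _ h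
    unfold Gd Circ at h
    tauto
  have j1 := Pr_or_le ok S (fun F => (¬ LRc (-r2) r2 r1 r2 F ∨ ¬ LRc (-r2) r2 (-r2) (-r1) F) ∨
        (¬ TBc r1 r2 (-r2) r2 F ∨ ¬ TBc (-r2) (-r1) (-r2) r2 F))
        (fun F => ¬ LRc (-r3) (-r1) (-r1) r1 F)
  have j2 := Pr_or_le ok S (fun F => ¬ LRc (-r2) r2 r1 r2 F ∨ ¬ LRc (-r2) r2 (-r2) (-r1) F)
        (fun F => ¬ TBc r1 r2 (-r2) r2 F ∨ ¬ TBc (-r2) (-r1) (-r2) r2 F)
  have j3 := Pr_or_le ok S (fun F => ¬ LRc (-r2) r2 r1 r2 F)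
    (fun F => ¬ LRc (-r2) r2 (-r2) (-r1) F)
  have j4 := Pr_or_le ok S (fun F => ¬ TBc r1 r2 (-r2) r2 F)
    (fun F => ¬ TBc (-r2) (-r1) (-r2) r2 F)
  linarith

/-- the radii -/
def R1 (m : ℕ) : ℕ → ℕ
  | 0 => 2 * m
  | k + 1 => 32 * m * 2^k

def R2 (m : ℕ) : ℕ → ℕ
  | 0 => 4 * m
  | k + 1 => 64 * m * 2^k

def R3 (m : ℕ) (k : ℕ) : ℕ := 64 * m * 2^k

theorem R3_eq (m k : ℕ) : R3 m k = R2 m (k + 1) := rfl

theorem R1_pos {m : ℕ} (hm : 1 ≤ m) (k : ℕ) : 1 ≤ R1 m k := by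
  cases k with
  | zero => show 1 ≤ 2 * m; omega
  | succ k =>
    show 1 ≤ 32 * m * 2^k
    have : 1 ≤ 2^k := Nat.one_le_two_pow
    nlinarith

theorem R12 (m k : ℕ) : R2 m k = 2 * R1 m k := by
  cases k with
  | zero => show 4 * m = 2 * (2 * m); ring
  | succ k => show 64 * m * 2^k = 2 * (32 * m * 2^k); ring

theorem R3_zero (m : ℕ) : R3 m 0 = 32 * R1 m 0 := by
  show 64 * m * 2^0 = 32 * (2 * m)
  ring

theorem R3_succ (m k : ℕ) : R3 m (k + 1) = 4 * R1 m (k + 1) := by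
  show 64 * m * 2^(k+1) = 4 * (32 * m * 2^k)
  ring

/-- the good event at step `k` -/
def GG (m k : ℕ) (F : Finset Edg) : Prop := Gd (R1 m k) (R2 m k) (R3 m k) F

theorem R23 {m : ℕ} (k : ℕ) : R2 m k ≤ R3 m k := by
  rw [R12]
  cases k with
  | zero => rw [R3_zero]; omega
  | succ k => rw [R3_succ]; omega

theorem chain_inf {m : ℕ} (hm : 1 ≤ m) {ω : sqLattice.edgeSet → Bool}
    (h : ∀ k, GG m k (FF (boxE (R3 m k)) ω)) {v : Vtx} (hv : Out (4 * m) v)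
    (hr : Reach (opn ω) (0, 0) v) : (cluster0 ω).Infinite := by
  have key : ∀ k : ℕ, ∃ w : Vtx, w.1 = -(R3 m k : ℤ) ∧ Reach (opn ω) (0, 0) w := by
    intro k
    induction k with
    | zero =>
      refine Gd_step (by positivity) ?_ ?_ (Finset.Subset.refl (boxE (R3 m 0))) (h 0)
        (w := v) ?_ hr
      · exact_mod_cast (show R1 m 0 < R2 m 0 by rw [R12]; have := R1_pos hm 0; omega)
      · exact_mod_cast R23 0
      · have : ((R2 m 0 : ℕ) : ℤ) = 4 * m := by show ((4 * m : ℕ) : ℤ) = 4 * m; push_cast; ring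
        rw [this]
        exact hv
    | succ k ih =>
      obtain ⟨w, hw, hr'⟩ := ih
      refine Gd_step (by positivity) ?_ ?_ (Finset.Subset.refl (boxE (R3 m (k + 1)))) (h (k + 1))
        (w := w) ?_ hr'
      · exact_mod_cast (show R1 m (k+1) < R2 m (k+1) by rw [R12]; have := R1_pos hm (k+1); omega)
      · exact_mod_cast R23 (k+1)
      · left
        rw [hw, R3_eq]
  intro hfin
  have hb : ((fun v : ℤ × ℤ => -v.1) '' cluster0 ω).Finite := hfin.image _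
  obtain ⟨N, hN⟩ := hb.bddAbove
  obtain ⟨w, hw, hr'⟩ := key (N.toNat + 1)
  have hmem : w ∈ cluster0 ω := (open_reach ω _ _).mpr hr'
  have h1 : -w.1 ≤ N := hN (Set.mem_image_of_mem _ hmem)
  rw [hw, neg_neg] at h1
  have h2 : N.toNat + 1 < R3 m (N.toNat + 1) := by
    have h3 : N.toNat + 1 < 2^(N.toNat + 1) := Nat.lt_two_pow_self
    have h4 : 2^(N.toNat + 1) ≤ 64 * m * 2^(N.toNat + 1) :=
      Nat.le_mul_of_pos_left _ (by omega)
    exact lt_of_lt_of_le h3 h4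
  have h5 : N ≤ N.toNat := Int.self_le_toNat N
  have h6 : ((N.toNat + 1 : ℕ) : ℤ) < (R3 m (N.toNat + 1) : ℤ) := by exact_mod_cast h2
  push_cast at h6
  omega

end Pool.Agent.D0H24.NC2
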